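import Mathlib

/-!
# The weak `k`-universal transversal property: definitions

`Ω` is a finite set, `G` a group of permutations of `Ω`.
-/

set_option autoImplicit false

namespace Pool.Agent.Lib.MP_2f925d_al

variable {Ω : Type*} [Fintype Ω] [DecidableEq Ω]

/-- `S` is a section of the partition `P` of `Ω`: it meets every block in exactly one point. -/
def IsSection (P : Finpartition (Finset.univ : Finset Ω)) (S : Finset Ω) : Prop :=
  ∀ B ∈ P.parts, (S ∩ B).card = 1

/-- `S` is a `G`-universal transversal set with `k` elements: it has `k` elements and for every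
partition of `Ω` into `k` blocks some image `S g`, `g ∈ G`, is a section of it. -/
def IsUniversal (G : Subgroup (Equiv.Perm Ω)) (k : ℕ) (S : Finset Ω) : Prop :=
  S.card = k ∧ ∀ P : Finpartition (Finset.univ : Finset Ω), P.parts.card = k →
    ∃ g ∈ G, IsSection P (S.image g)

/-- The weak `k`-ut property. -/
def WeakUT (G : Subgroup (Equiv.Perm Ω)) (k : ℕ) : Prop :=
  ∃ S : Finset Ω, IsUniversal G k S

/-- `Δ` is a Moore graph of degree `d` and diameter `2`: it has `d ^ 2 + 1` vertices, is regular of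
degree `d`, has no triangle, and two different non-adjacent vertices have exactly one common
neighbour. -/
def IsMoore (Δ : SimpleGraph Ω) (d : ℕ) : Prop :=
  Fintype.card Ω = d ^ 2 + 1 ∧ (∀ x, {y | Δ.Adj x y}.ncard = d) ∧
    (∀ x y, Δ.Adj x y → ∀ z, ¬ (Δ.Adj x z ∧ Δ.Adj y z)) ∧
    ∀ x y, x ≠ y → ¬ Δ.Adj x y → ∃! z, Δ.Adj x z ∧ Δ.Adj y z

/-- `Δ` has no edge, or is a perfect matching, or a star (one point adjacent to all others and no
further edge), or a Moore graph of diameter `2` with `5`, `10` or `50` vertices. -/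
def IsSpecial (Δ : SimpleGraph Ω) : Prop :=
  (∀ x y, ¬ Δ.Adj x y) ∨ (∀ x, ∃! y, Δ.Adj x y) ∨
    (∃ c, ∀ x y, Δ.Adj x y ↔ x ≠ y ∧ (x = c ∨ y = c)) ∨
    IsMoore Δ 2 ∨ IsMoore Δ 3 ∨ IsMoore Δ 7

end Pool.Agent.Lib.MP_2f925d_al
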