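import Pool.Agent.Lib.MP_2f925d_al.Defs

set_option autoImplicit false

namespace Pool.Agent.Lib.MP_2f925d_al

variable {Ω : Type*} [Fintype Ω] [DecidableEq Ω]

section

variable (Δ : SimpleGraph Ω)
  (h3 : ∀ x y, Δ.Adj x y → ∀ z, ¬ (Δ.Adj x z ∧ Δ.Adj y z))
  (h4 : ∀ x y, x ≠ y → ∀ z w, Δ.Adj x z → Δ.Adj y z → Δ.Adj x w → Δ.Adj y w → z = w)

include h3 h4 in
theorem deg_le (hcn : ∀ x y, x ≠ y → ¬ Δ.Adj x y → ∃ z, Δ.Adj x z ∧ Δ.Adj y z)
    {x y : Ω} (hxy : x ≠ y) (hna : ¬ Δ.Adj x y) :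
    {u | Δ.Adj x u}.ncard ≤ {u | Δ.Adj y u}.ncard := by
  classical
  obtain ⟨z, hxz, hyz⟩ := hcn x y hxy hna
  have key : ∀ u, Δ.Adj x u → u ≠ z → ∃ v, Δ.Adj y v ∧ Δ.Adj u v ∧ v ≠ z := by
    intro u hu huz
    have huy : u ≠ y := by
      rintro rfl
      exact hna hu
    have hnu : ¬ Δ.Adj u y := by
      intro h
      exact huz (h4 x y hxy u z hu h.symm hxz hyz)
    obtain ⟨v, hv1, hv2⟩ := hcn u y huy hnu
    refine ⟨v, hv2, hv1, ?_⟩
    rintro rfl
    exact h3 x v hxz u ⟨hu, hv1.symm⟩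
  have hex : ∀ u, ∃ v, Δ.Adj x u → (Δ.Adj y v ∧ ((u = z ∧ v = z) ∨ (u ≠ z ∧ Δ.Adj u v ∧ v ≠ z))) := by
    intro u
    by_cases hu : Δ.Adj x u
    · by_cases huz : u = z
      · exact ⟨z, fun _ => ⟨hyz, Or.inl ⟨huz, rfl⟩⟩⟩
      · obtain ⟨v, h1, h2, h5⟩ := key u hu huz
        exact ⟨v, fun _ => ⟨h1, Or.inr ⟨huz, h2, h5⟩⟩⟩
    · exact ⟨z, fun h => absurd h hu⟩
  choose f hf using hex
  refine Set.ncard_le_ncard_of_injOn f ?_ ?_ (Set.toFinite _)
  · intro u hu
    exact (hf u hu).1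
  · intro u hu v hv huv
    have hu' : Δ.Adj x u := hu
    have hv' : Δ.Adj x v := hv
    obtain ⟨h1, h2⟩ := hf u hu'
    obtain ⟨h5, h6⟩ := hf v hv'
    rcases h2 with ⟨h2, h7⟩ | ⟨h2, h7, h8⟩
    · rcases h6 with ⟨h6, h9⟩ | ⟨h6, h9, h10⟩
      · rw [h2, h6]
      · exact absurd (huv.symm.trans h7) h10
    · rcases h6 with ⟨h6, h9⟩ | ⟨h6, h9, h10⟩
      · exact absurd (huv.trans h9) h8
      · have hne : x ≠ f u := by
          intro h
          rw [← h] at h1
          exact hna h1.symm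
        refine h4 x (f u) hne u v hu' h7.symm hv' ?_
        rw [huv]
        exact h9.symm

include h3 h4 in
/-- The case in which two non-adjacent vertices always have a common neighbour. -/
theorem star_or_moore (hcn : ∀ x y, x ≠ y → ¬ Δ.Adj x y → ∃ z, Δ.Adj x z ∧ Δ.Adj y z)
    [Nonempty Ω] :
    (∃ c, ∀ x y, Δ.Adj x y ↔ x ≠ y ∧ (x = c ∨ y = c)) ∨ ∃ d, IsMoore Δ d := by
  classical
  have hdeg : ∀ x y, x ≠ y → ¬ Δ.Adj x y → {u | Δ.Adj x u}.ncard = {u | Δ.Adj y u}.ncard :=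
    fun x y h1 h2 => le_antisymm (deg_le Δ h3 h4 hcn h1 h2)
      (deg_le Δ h3 h4 hcn h1.symm (fun h => h2 h.symm))
  by_cases hreg : ∀ x y, {u | Δ.Adj x u}.ncard = {u | Δ.Adj y u}.ncard
  · right
    obtain ⟨x0⟩ := ‹Nonempty Ω›
    refine ⟨{u | Δ.Adj x0 u}.ncard, ?_, fun x => hreg x x0, h3, ?_⟩
    · have hsrg : Δ.IsSRGWith (Fintype.card Ω) {u | Δ.Adj x0 u}.ncard 0 1 := by
        refine ⟨rfl, ?_, ?_, ?_⟩
        · intro x
          rw [← hreg x x0, ← SimpleGraph.card_neighborFinset_eq_degree, Set.ncard_eq_toFinset_card']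
          congr 1
        · intro v w hvw
          rw [Fintype.card_eq_zero_iff]
          exact ⟨fun ⟨z, hz⟩ => h3 v w hvw z hz⟩
        · intro v w hvw hna
          obtain ⟨z, hz1, hz2⟩ := hcn v w hvw hna
          rw [Fintype.card_eq_one_iff]
          exact ⟨⟨z, hz1, hz2⟩, fun ⟨u, hu⟩ => Subtype.ext (h4 v w hvw u z hu.1 hu.2 hz1 hz2)⟩
      have h5 := SimpleGraph.IsSRGWith.param_eq Δ hsrg (Fintype.card_pos_iff.mpr ⟨x0⟩)
      have h6 : {u | Δ.Adj x0 u}.ncard < Fintype.card Ω := by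
        have : {u | Δ.Adj x0 u} ⊂ Set.univ := by
          refine ⟨Set.subset_univ _, fun h => ?_⟩
          exact Δ.irrefl (h (Set.mem_univ x0))
        have h7 := Set.ncard_lt_ncard this (Set.toFinite _)
        rwa [Set.ncard_univ, Nat.card_eq_fintype_card] at h7
      generalize {u | Δ.Adj x0 u}.ncard = d at h5 h6 ⊢
      generalize Fintype.card Ω = n at h5 h6 ⊢
      rcases d with _ | d
      · simp at h5
        omega
      · have h8 : n = (d + 1) * d + (d + 1) + 1 := by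
          have : (d + 1) * (d + 1 - 0 - 1) = (n - (d + 1) - 1) * 1 := h5
          simp only [Nat.sub_zero, Nat.add_sub_cancel, mul_one] at this
          omega
        rw [h8]
        ring
    · intro x y hxy hna
      obtain ⟨z, hz⟩ := hcn x y hxy hna
      exact ⟨z, hz, fun w hw => h4 x y hxy w z hw.1 hw.2 hz.1 hz.2⟩
  · left
    push Not at hreg
    obtain ⟨u, v, huv⟩ := hreg
    have hstar : ∀ c, (∀ w, w ≠ c → Δ.Adj c w) →
        ∃ c, ∀ x y, Δ.Adj x y ↔ x ≠ y ∧ (x = c ∨ y = c) := by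
      intro c hc
      refine ⟨c, fun x y => ⟨fun h => ⟨h.ne, ?_⟩, ?_⟩⟩
      · by_contra hcon
        push Not at hcon
        exact h3 x y h c ⟨(hc x hcon.1).symm, (hc y hcon.2).symm⟩
      · rintro ⟨hne, rfl | rfl⟩
        · exact hc y hne.symm
        · exact (hc x hne).symm
    by_contra hcon
    -- every vertex `a` has another vertex of the same degree
    have hsame : ∀ a, ∃ b, b ≠ a ∧ {t | Δ.Adj b t}.ncard = {t | Δ.Adj a t}.ncard := by
      intro a
      by_contra hno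
      push Not at hno
      apply hcon
      refine hstar a (fun w hw => ?_)
      by_contra hna
      exact hno w hw (hdeg w a hw (fun h => hna h.symm))
    obtain ⟨u', hu1, hu2⟩ := hsame u
    obtain ⟨v', hv1, hv2⟩ := hsame v
    have hadj : ∀ a b, {t | Δ.Adj a t}.ncard ≠ {t | Δ.Adj b t}.ncard → Δ.Adj a b := by
      intro a b hab
      by_contra hna
      refine hab (hdeg a b ?_ hna)
      rintro rfl
      exact hab rfl
    have := h4 u u' hu1.symm v v' (hadj _ _ huv) (hadj _ _ (by rw [hu2]; exact huv))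
      (hadj _ _ (by rw [hv2]; exact huv)) (hadj _ _ (by rw [hu2, hv2]; exact huv))
    exact hv1 this.symm

include h3 h4 in
/-- A graph without triangles and `4`-cycles in which all pairs of non-adjacent vertices are
alike. -/
theorem graph_cases (hn : 4 ≤ Fintype.card Ω)
    (htr : ∀ x y z w, x ≠ y → ¬ Δ.Adj x y → z ≠ w → ¬ Δ.Adj z w →
      ∃ g : Equiv.Perm Ω, (∀ a b, Δ.Adj (g a) (g b) ↔ Δ.Adj a b) ∧
        ((g x = z ∧ g y = w) ∨ (g x = w ∧ g y = z))) :
    (∀ x y, ¬ Δ.Adj x y) ∨ (∀ x, ∃! y, Δ.Adj x y) ∨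
      (∃ c, ∀ x y, Δ.Adj x y ↔ x ≠ y ∧ (x = c ∨ y = c)) ∨ ∃ d, IsMoore Δ d := by
  classical
  have hne : Nonempty Ω := Fintype.card_pos_iff.mp (by omega)
  by_cases hcn : ∀ x y, x ≠ y → ¬ Δ.Adj x y → ∃ z, Δ.Adj x z ∧ Δ.Adj y z
  · right; right
    exact star_or_moore Δ h3 h4 hcn
  · push Not at hcn
    obtain ⟨x0, y0, hxy0, hna0, hno0⟩ := hcn
    have hno : ∀ x y, x ≠ y → ¬ Δ.Adj x y → ∀ z, Δ.Adj x z → ¬ Δ.Adj y z := by
      intro x y hxy hna z hz1 hz2
      obtain ⟨g, hg, hg2⟩ := htr x y x0 y0 hxy hna hxy0 hna0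
      have h1 := (hg x z).mpr hz1
      have h2 := (hg y z).mpr hz2
      rcases hg2 with ⟨h5, h6⟩ | ⟨h5, h6⟩
      · rw [h5] at h1
        rw [h6] at h2
        exact hno0 _ h1 h2
      · rw [h5] at h1
        rw [h6] at h2
        exact hno0 _ h2 h1
    have huniq : ∀ x y z, Δ.Adj x y → Δ.Adj x z → y = z := by
      intro x y z hy hz
      by_contra hyz
      have hna : ¬ Δ.Adj y z := fun h => h3 x y hy z ⟨hz, h⟩
      exact hno y z hyz hna x hy.symm hz.symm
    by_cases hedge : ∃ a b, Δ.Adj a b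
    · right; left
      obtain ⟨a, b, hab⟩ := hedge
      intro c
      suffices h : ∃ y, Δ.Adj c y by
        obtain ⟨y, hy⟩ := h
        exact ⟨y, hy, fun z hz => huniq c z y hz hy⟩
      by_contra hc
      push Not at hc
      have hca : c ≠ a := by rintro rfl; exact hc b hab
      have hcb : c ≠ b := by rintro rfl; exact hc a hab.symm
      obtain ⟨d, hd⟩ : ∃ d, d ∉ ({a, b, c} : Finset Ω) := by
        by_contra hall
        push Not at hall
        have h1 : (Finset.univ : Finset Ω) ⊆ {a, b, c} := fun x _ => hall x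
        have h2 := Finset.card_le_card h1
        rw [Finset.card_univ] at h2
        have h5 := Finset.card_le_three (a := a) (b := b) (c := c)
        omega
      simp only [Finset.mem_insert, Finset.mem_singleton, not_or] at hd
      obtain ⟨hda, hdb, hdc⟩ := hd
      have hiso : ∀ g : Equiv.Perm Ω, (∀ a b, Δ.Adj (g a) (g b) ↔ Δ.Adj a b) →
          ∀ x, (∀ y, ¬ Δ.Adj x y) ↔ (∀ y, ¬ Δ.Adj (g x) y) := by
        intro g hg x
        constructor
        · intro h y hy
          have := (hg x (g.symm y)).mp (by simpa using hy)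
          exact h _ this
        · intro h y hy
          exact h _ ((hg x y).mpr hy)
      by_cases hdi : ∀ y, ¬ Δ.Adj d y
      · -- both `c` and `d` are isolated
        obtain ⟨g, hg, hg2⟩ := htr a c c d hca.symm (fun h => hc _ h.symm) (Ne.symm hdc) (hc d)
        have ha : ¬ ∀ y, ¬ Δ.Adj a y := fun h => h b hab
        apply ha
        rw [hiso g hg a]
        rcases hg2 with ⟨h5, _⟩ | ⟨h5, _⟩
        · rw [h5]; exact hc
        · rw [h5]; exact hdi
      · -- `d` is not isolated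
        have had : ¬ Δ.Adj a d := fun h => hdb (huniq a d b h hab)
        obtain ⟨g, hg, hg2⟩ := htr a c a d hca.symm (fun h => hc _ h.symm) (Ne.symm hda) had
        have h6 := (hiso g hg c).mp hc
        rcases hg2 with ⟨_, h5⟩ | ⟨_, h5⟩
        · rw [h5] at h6; exact hdi h6
        · rw [h5] at h6; exact h6 b hab
    · left
      push Not at hedge
      exact hedge

end

end Pool.Agent.Lib.MP_2f925d_al
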