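import Pool.Agent.Lib.MP_2f925d_al.Defs

/-!
# Moore graphs of diameter two: the theorem of Hoffman and Singleton

The trace of an idempotent matrix is an integer. Applied to the projection onto the eigenspaces of
the adjacency matrix `A` this gives `d ∈ {2, 3, 7, 57}`.
-/

set_option autoImplicit false

namespace Pool.Agent.Lib.MP_2f925d_al

variable {Ω : Type*} [Fintype Ω] [DecidableEq Ω]

open Matrix

/-- The trace of an idempotent real matrix is a natural number. -/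
theorem trace_idem (P : Matrix Ω Ω ℝ) (h : P * P = P) : ∃ m : ℕ, P.trace = m := by
  have h1 : IsIdempotentElem (Matrix.toLin' P) := by
    have h2 := Matrix.toLin'_mul P P
    rw [h] at h2
    exact h2.symm
  refine ⟨Module.finrank ℝ (LinearMap.range (Matrix.toLin' P)), ?_⟩
  rw [← Matrix.trace_toLin'_eq]
  exact (LinearMap.IsIdempotentElem.isProj_range _ h1).trace

/-- The all-one matrix. -/
def allOne (Ω : Type*) : Matrix Ω Ω ℝ := fun _ _ => 1

/-- The adjacency matrix. -/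
noncomputable def adj (Δ : SimpleGraph Ω) : Matrix Ω Ω ℝ := by
  classical
  exact Δ.adjMatrix ℝ

omit [Fintype Ω] [DecidableEq Ω] in
theorem adj_apply (Δ : SimpleGraph Ω) (x y : Ω) [Decidable (Δ.Adj x y)] :
    adj Δ x y = if Δ.Adj x y then 1 else 0 := by
  unfold adj
  rw [SimpleGraph.adjMatrix_apply]
  congr

theorem adj_sq (Δ : SimpleGraph Ω) (d : ℕ) (h : IsMoore Δ d) :
    adj Δ * adj Δ = ((d : ℝ) - 1) • (1 : Matrix Ω Ω ℝ) + allOne Ω - adj Δ := by
  classical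
  obtain ⟨hn, hdeg, h3, hcn⟩ := h
  have hsrg : Δ.IsSRGWith (Fintype.card Ω) d 0 1 := by
    refine ⟨rfl, ?_, ?_, ?_⟩
    · intro x
      rw [← hdeg x, ← SimpleGraph.card_neighborFinset_eq_degree, Set.ncard_eq_toFinset_card']
      congr 1
    · intro v w hvw
      rw [Fintype.card_eq_zero_iff]
      exact ⟨fun ⟨z, hz⟩ => h3 v w hvw z hz⟩
    · intro v w hvw hna
      obtain ⟨z, hz, hz'⟩ := hcn v w hvw hna
      rw [Fintype.card_eq_one_iff]
      exact ⟨⟨z, hz⟩, fun ⟨u, hu⟩ => Subtype.ext (hz' u hu)⟩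
  have h5 := hsrg.matrix_eq (α := ℝ)
  rw [pow_two, ← Nat.cast_smul_eq_nsmul ℝ d, zero_smul, one_smul, add_zero] at h5
  have h6 : adj Δ = Δ.adjMatrix ℝ := by
    unfold adj
    congr
  rw [h6, h5]
  ext x y
  simp only [Matrix.add_apply, Matrix.sub_apply, Matrix.smul_apply, SimpleGraph.adjMatrix_apply,
    SimpleGraph.compl_adj, allOne, smul_eq_mul, Matrix.one_apply]
  by_cases hxy : x = y
  · subst hxy
    simp
  · by_cases ha : Δ.Adj x y <;> simp [hxy, ha]

omit [DecidableEq Ω] in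
theorem adj_allOne (Δ : SimpleGraph Ω) (d : ℕ) (h : IsMoore Δ d) :
    adj Δ * allOne Ω = (d : ℝ) • allOne Ω := by
  classical
  ext x y
  rw [Matrix.mul_apply]
  simp only [allOne, mul_one, Matrix.smul_apply, smul_eq_mul, adj_apply]
  rw [← h.2.1 x, Set.ncard_eq_toFinset_card', ← Finset.sum_filter, Finset.sum_const, nsmul_eq_mul,
    mul_one]
  congr 2
  ext z
  simp

omit [DecidableEq Ω] in
theorem allOne_adj (Δ : SimpleGraph Ω) (d : ℕ) (h : IsMoore Δ d) :
    allOne Ω * adj Δ = (d : ℝ) • allOne Ω := by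
  classical
  ext x y
  rw [Matrix.mul_apply]
  simp only [allOne, one_mul, mul_one, Matrix.smul_apply, smul_eq_mul, adj_apply]
  rw [← h.2.1 y, Set.ncard_eq_toFinset_card', ← Finset.sum_filter, Finset.sum_const, nsmul_eq_mul,
    mul_one]
  congr 2
  ext z
  simp [Δ.adj_comm]

omit [DecidableEq Ω] in
theorem allOne_sq : allOne Ω * allOne Ω = (Fintype.card Ω : ℝ) • allOne Ω := by
  ext x y
  rw [Matrix.mul_apply]
  simp [allOne]

/-- A linear combination of `1`, `A` and `J`. -/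
noncomputable def comb (Δ : SimpleGraph Ω) (α β γ : ℝ) : Matrix Ω Ω ℝ :=
  α • (1 : Matrix Ω Ω ℝ) + β • adj Δ + γ • allOne Ω

theorem comb_idem (Δ : SimpleGraph Ω) (d : ℕ) (h : IsMoore Δ d) (α β γ : ℝ)
    (h1 : α ^ 2 + β ^ 2 * (d - 1) = α) (h2 : 2 * α * β - β ^ 2 = β)
    (h5 : 2 * α * γ + β ^ 2 + 2 * β * γ * d + γ ^ 2 * (d ^ 2 + 1) = γ) :
    comb Δ α β γ * comb Δ α β γ = comb Δ α β γ := by
  have e1 := adj_sq Δ d h
  have e2 := adj_allOne Δ d h
  have e3 := allOne_adj Δ d h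
  have e4 := allOne_sq (Ω := Ω)
  have hn : (Fintype.card Ω : ℝ) = (d : ℝ) ^ 2 + 1 := by
    rw [h.1]
    push_cast
    ring
  rw [hn] at e4
  unfold comb
  simp only [add_mul, mul_add, smul_mul_assoc, mul_smul_comm, one_mul, mul_one, e1, e2, e3, e4]
  ext x y
  simp only [Matrix.add_apply, Matrix.sub_apply, Matrix.smul_apply, smul_eq_mul]
  linear_combination ((1 : Matrix Ω Ω ℝ) x y) * h1 + (adj Δ x y) * h2 + (allOne Ω x y) * h5

omit [DecidableEq Ω] in
theorem trace_adj (Δ : SimpleGraph Ω) : (adj Δ).trace = 0 := by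
  classical
  unfold Matrix.trace
  refine Finset.sum_eq_zero fun x _ => ?_
  rw [Matrix.diag_apply, adj_apply]
  simp

/-- The equation of Hoffman and Singleton. -/
theorem hs_eq (Δ : SimpleGraph Ω) (d : ℕ) (h : IsMoore Δ d) (hd : 1 ≤ d) :
    ∃ z : ℤ, ((d : ℤ) ^ 2 - 2 * d) ^ 2 = z ^ 2 * (4 * d - 3) := by
  have hd' : (1 : ℝ) ≤ d := by exact_mod_cast hd
  obtain ⟨t, ht0, ht⟩ : ∃ t : ℝ, 0 < t ∧ t ^ 2 = 4 * d - 3 := by
    refine ⟨Real.sqrt (4 * d - 3), Real.sqrt_pos.mpr (by linarith), Real.sq_sqrt (by linarith)⟩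
  have hn0 : (0 : ℝ) < (d : ℝ) ^ 2 + 1 := by positivity
  have hid := comb_idem Δ d h ((t + 1) / (2 * t)) (1 / t)
    (-(2 * d + 1 - t) / (2 * t * (d ^ 2 + 1))) (by
      field_simp
      linear_combination -ht) (by field_simp; ring) (by
      field_simp
      have : (d : ℝ) = (t ^ 2 + 3) / 4 := by linarith
      rw [this]
      ring)
  obtain ⟨m, hm⟩ := trace_idem _ hid
  have htr : (comb Δ ((t + 1) / (2 * t)) (1 / t) (-(2 * d + 1 - t) / (2 * t * (d ^ 2 + 1)))).trace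
      = ((d : ℝ) ^ 2 + 2 + ((d : ℝ) ^ 2 - 2 * d) / t) / 2 := by
    unfold comb
    rw [Matrix.trace_add, Matrix.trace_add, Matrix.trace_smul, Matrix.trace_smul,
      Matrix.trace_smul, Matrix.trace_one, trace_adj]
    have h7 : (allOne Ω).trace = (Fintype.card Ω : ℝ) := by
      simp [Matrix.trace, allOne]
    rw [h7, h.1]
    push_cast
    simp only [smul_eq_mul]
    field_simp
    ring
  rw [htr] at hm
  refine ⟨2 * m - d ^ 2 - 2, ?_⟩
  have h8 : ((d : ℝ) ^ 2 - 2 * d) = (2 * m - d ^ 2 - 2) * t := by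
    field_simp at hm
    linarith
  have h9 : ((d : ℝ) ^ 2 - 2 * d) ^ 2 = (2 * m - d ^ 2 - 2) ^ 2 * (4 * d - 3) := by
    rw [h8, mul_pow, ht]
  exact_mod_cast h9

theorem hs_degree (Δ : SimpleGraph Ω) (d : ℕ) (h : IsMoore Δ d) (hd : 2 ≤ d) :
    d = 2 ∨ d = 3 ∨ d = 7 ∨ d = 57 := by
  obtain ⟨z, hz⟩ := hs_eq Δ d h (by omega)
  have hdvd : (4 * (d : ℤ) - 3) ∣ 225 := by
    refine ⟨256 * z ^ 2 - (4 * d - 3) * ((4 * d - 3) ^ 2 - 4 * (4 * d - 3) - 26) - 60, ?_⟩
    linear_combination 256 * hz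
  have hle : 4 * d - 3 ∣ 225 := by
    have h1 : ((4 * d - 3 : ℕ) : ℤ) = 4 * (d : ℤ) - 3 := by
      rw [Nat.cast_sub (by omega)]
      push_cast
      ring
    rw [← h1] at hdvd
    exact_mod_cast hdvd
  have hd57 : d ≤ 57 := by
    have := Nat.le_of_dvd (by norm_num) hle
    omega
  have hmem : d = 2 ∨ d = 3 ∨ d = 7 ∨ d = 12 ∨ d = 57 := by
    interval_cases d <;> omega
  rcases hmem with h1 | h1 | h1 | h1 | h1
  · exact Or.inl h1
  · exact Or.inr (Or.inl h1)
  · exact Or.inr (Or.inr (Or.inl h1))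
  · exfalso
    subst h1
    have hz2 : z ^ 2 = 320 := by
      push_cast at hz
      linarith
    have h1 : z < 18 := by nlinarith
    have h2 : -18 < z := by nlinarith
    interval_cases z <;> omega
  · exact Or.inr (Or.inr (Or.inr h1))

end Pool.Agent.Lib.MP_2f925d_al
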