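import Pool.Agent.Lib.MP_2f925d_al.Defs

/-!
# Partitions of an `n`-set into `n - 2` blocks

Such a partition has one block with three elements, or two blocks with two elements, and all
other blocks have one element.
-/

set_option autoImplicit false

namespace Pool.Agent.Lib.MP_2f925d_al

variable {Ω : Type*} [Fintype Ω] [DecidableEq Ω]

theorem isSection_compl (P : Finpartition (Finset.univ : Finset Ω)) (T : Finset Ω) :
    IsSection P Tᶜ ↔ ∀ B ∈ P.parts, (B \ T).card = 1 := by
  unfold IsSection
  refine forall₂_congr fun B _ => ?_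
  have h1 : Tᶜ ∩ B = B \ T := by
    ext x
    simp [and_comm]
  rw [h1]

theorem image_eq_compl (g : Equiv.Perm Ω) (S : Finset Ω) : S.image g = (Sᶜ.image g)ᶜ := by
  ext x
  simp only [Finset.mem_image, Finset.mem_compl, not_exists, not_and]
  constructor
  · rintro ⟨y, hy, rfl⟩ z hz hzy
    have : z = y := g.injective hzy
    exact hz (this ▸ hy)
  · intro h
    refine ⟨g.symm x, ?_, by simp⟩
    by_contra hh
    exact h _ hh (by simp)

theorem tri_part (a b c : Ω) (hab : a ≠ b) (hac : a ≠ c) (hbc : b ≠ c) :
    ∃ P : Finpartition (Finset.univ : Finset Ω), P.parts.card = Fintype.card Ω - 2 ∧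
      ∀ T : Finset Ω, T.card = 2 → IsSection P Tᶜ → T = {a, b} ∨ T = {a, c} ∨ T = {b, c} := by
  have hcard : ({a, b, c} : Finset Ω).card = 3 := Finset.card_eq_three.mpr
    ⟨a, b, c, hab, hac, hbc, rfl⟩
  have hle : ({a, b, c} : Finset Ω).card ≤ Fintype.card Ω := Finset.card_le_univ _
  let P : Finpartition (Finset.univ : Finset Ω) :=
    (⊥ : Finpartition (({a, b, c} : Finset Ω)ᶜ)).extend (b := ({a, b, c} : Finset Ω))
      (by intro h; rw [Finset.bot_eq_empty] at h; rw [h] at hcard; simp at hcard)
      disjoint_compl_left (by rw [Finset.sup_eq_union, Finset.union_comm]; exact Finset.union_compl _)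
  refine ⟨P, ?_, ?_⟩
  · rw [Finpartition.card_extend, Finpartition.card_bot, Finset.card_compl]
    omega
  · intro T hT hS
    rw [isSection_compl] at hS
    have hsub : ∀ x ∈ T, x = a ∨ x = b ∨ x = c := by
      intro x hx
      by_contra hh
      have hmem : ({x} : Finset Ω) ∈ P.parts := by
        refine Finset.mem_insert_of_mem ?_
        rw [Finpartition.mem_bot_iff]
        refine ⟨x, ?_, rfl⟩
        simpa using hh
      have h1 := hS _ hmem
      rw [Finset.sdiff_eq_empty_iff_subset.mpr (Finset.singleton_subset_iff.mpr hx)] at h1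
      simp at h1
    obtain ⟨x, y, hxy, rfl⟩ := Finset.card_eq_two.mp hT
    have hx := hsub x (by simp)
    have hy := hsub y (by simp)
    rcases hx with rfl | rfl | rfl <;> rcases hy with rfl | rfl | rfl <;>
      first
      | exact absurd rfl hxy
      | exact Or.inl rfl
      | exact Or.inr (Or.inl rfl)
      | exact Or.inr (Or.inr rfl)
      | exact Or.inl (Finset.pair_comm _ _)
      | exact Or.inr (Or.inl (Finset.pair_comm _ _))
      | exact Or.inr (Or.inr (Finset.pair_comm _ _))

theorem sq_part (a b c d : Ω) (hab : a ≠ b) (hac : a ≠ c) (had : a ≠ d) (hbc : b ≠ c)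
    (hbd : b ≠ d) (hcd : c ≠ d) :
    ∃ P : Finpartition (Finset.univ : Finset Ω), P.parts.card = Fintype.card Ω - 2 ∧
      ∀ T : Finset Ω, T.card = 2 → IsSection P Tᶜ →
        T = {a, c} ∨ T = {a, d} ∨ T = {b, c} ∨ T = {b, d} := by
  have hcard : ({a, b, c, d} : Finset Ω).card = 4 := by
    rw [Finset.card_insert_of_notMem (by simp [hab, hac, had]),
      Finset.card_insert_of_notMem (by simp [hbc, hbd]), Finset.card_pair hcd]
  have hle : ({a, b, c, d} : Finset Ω).card ≤ Fintype.card Ω := Finset.card_le_univ _
  let P1 : Finpartition ((({a, b, c, d} : Finset Ω)ᶜ) ∪ {c, d}) :=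
    (⊥ : Finpartition (({a, b, c, d} : Finset Ω)ᶜ)).extend (b := ({c, d} : Finset Ω))
      (by intro h; rw [Finset.bot_eq_empty] at h; exact Finset.insert_ne_empty _ _ h)
      (by
        rw [Finset.disjoint_left]
        intro x hx hx2
        simp only [Finset.mem_compl, Finset.mem_insert, Finset.mem_singleton] at hx hx2
        tauto) rfl
  let P : Finpartition (Finset.univ : Finset Ω) :=
    P1.extend (b := ({a, b} : Finset Ω))
      (by intro h; rw [Finset.bot_eq_empty] at h; exact Finset.insert_ne_empty _ _ h)
      (by
        rw [Finset.disjoint_left]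
        intro x hx hx2
        simp only [Finset.mem_union, Finset.mem_compl, Finset.mem_insert, Finset.mem_singleton]
          at hx hx2
        rcases hx with hx | hx
        · tauto
        · rcases hx with rfl | rfl <;> rcases hx2 with h | h <;>
            first
            | exact hac h.symm
            | exact hbc h.symm
            | exact had h.symm
            | exact hbd h.symm)
      (by
        ext x
        simp only [Finset.sup_eq_union, Finset.mem_union, Finset.mem_compl, Finset.mem_insert,
          Finset.mem_singleton, Finset.mem_univ, iff_true]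
        tauto)
  refine ⟨P, ?_, ?_⟩
  · rw [Finpartition.card_extend, Finpartition.card_extend, Finpartition.card_bot,
      Finset.card_compl]
    omega
  · intro T hT hS
    rw [isSection_compl] at hS
    have hsub : ∀ x ∈ T, x = a ∨ x = b ∨ x = c ∨ x = d := by
      intro x hx
      by_contra hh
      have hmem : ({x} : Finset Ω) ∈ P.parts := by
        refine Finset.mem_insert_of_mem (Finset.mem_insert_of_mem ?_)
        rw [Finpartition.mem_bot_iff]
        refine ⟨x, ?_, rfl⟩
        simpa using hh
      have h1 := hS _ hmem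
      rw [Finset.sdiff_eq_empty_iff_subset.mpr (Finset.singleton_subset_iff.mpr hx)] at h1
      simp at h1
    have h1 : T ≠ {a, b} := by
      rintro rfl
      have h2 := hS {a, b} (Finset.mem_insert_self _ _)
      simp at h2
    have h2 : T ≠ {c, d} := by
      rintro rfl
      have h2 := hS {c, d} (Finset.mem_insert_of_mem (Finset.mem_insert_self _ _))
      simp at h2
    obtain ⟨x, y, hxy, rfl⟩ := Finset.card_eq_two.mp hT
    have hx := hsub x (by simp)
    have hy := hsub y (by simp)
    rcases hx with rfl | rfl | rfl | rfl <;> rcases hy with rfl | rfl | rfl | rfl <;>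
      first
      | exact absurd rfl hxy
      | exact absurd rfl h1
      | exact absurd (Finset.pair_comm _ _) h1
      | exact absurd rfl h2
      | exact absurd (Finset.pair_comm _ _) h2
      | exact Or.inl rfl
      | exact Or.inr (Or.inl rfl)
      | exact Or.inr (Or.inr (Or.inl rfl))
      | exact Or.inr (Or.inr (Or.inr rfl))
      | exact Or.inl (Finset.pair_comm _ _)
      | exact Or.inr (Or.inl (Finset.pair_comm _ _))
      | exact Or.inr (Or.inr (Or.inl (Finset.pair_comm _ _)))
      | exact Or.inr (Or.inr (Or.inr (Finset.pair_comm _ _)))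

theorem notMem_other {P : Finpartition (Finset.univ : Finset Ω)} {B B1 : Finset Ω}
    (hB : B ∈ P.parts) (hB1 : B1 ∈ P.parts) (hne : B ≠ B1) {x : Ω} (hx : x ∈ B1) : x ∉ B := by
  have h1 := P.disjoint hB hB1 hne
  exact fun hh => (Finset.disjoint_left.mp h1 hh) hx

theorem exists_section (P : Finpartition (Finset.univ : Finset Ω)) (hn : 4 ≤ Fintype.card Ω)
    (hP : P.parts.card = Fintype.card Ω - 2) :
    (∃ a b c : Ω, a ≠ b ∧ a ≠ c ∧ b ≠ c ∧
      ∀ T : Finset Ω, (T = {a, b} ∨ T = {a, c} ∨ T = {b, c}) → IsSection P Tᶜ) ∨
    (∃ a b c d : Ω, a ≠ b ∧ a ≠ c ∧ a ≠ d ∧ b ≠ c ∧ b ≠ d ∧ c ≠ d ∧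
      ∀ T : Finset Ω, (T = {a, c} ∨ T = {a, d} ∨ T = {b, c} ∨ T = {b, d}) →
        IsSection P Tᶜ) := by
  have hsum := P.sum_card_parts
  have hpos : ∀ B ∈ P.parts, 1 ≤ B.card := fun B hB =>
    Finset.card_pos.mpr (P.nonempty_of_mem_parts hB)
  have hexc : ∑ B ∈ P.parts, (B.card - 1) = 2 := by
    have h1 : ∑ B ∈ P.parts, B.card = ∑ B ∈ P.parts, (B.card - 1) + P.parts.card := by
      rw [Finset.card_eq_sum_ones, ← Finset.sum_add_distrib]
      refine Finset.sum_congr rfl fun B hB => ?_
      have := hpos B hB
      omega
    rw [Finset.card_univ] at hsum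
    omega
  obtain ⟨B1, hB1, h1⟩ : ∃ B ∈ P.parts, 1 ≤ B.card - 1 := by
    by_contra hh
    push Not at hh
    have h2 : ∑ B ∈ P.parts, (B.card - 1) = 0 := Finset.sum_eq_zero fun B hB => by
      have := hh B hB
      omega
    omega
  have hs1 := Finset.add_sum_erase P.parts (fun B => B.card - 1) hB1
  simp only [hexc] at hs1
  by_cases h2 : 2 ≤ B1.card - 1
  · left
    have h5 : ∑ B ∈ P.parts.erase B1, (B.card - 1) = 0 := by omega
    have h6 : ∀ B ∈ P.parts, B ≠ B1 → B.card = 1 := by
      intro B hB hne
      have h7 := (Finset.sum_eq_zero_iff.mp h5) B (Finset.mem_erase.mpr ⟨hne, hB⟩)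
      have h8 := hpos B hB
      omega
    obtain ⟨a, b, c, hab, hac, hbc, hBe⟩ := Finset.card_eq_three.mp
      (show B1.card = 3 by omega)
    refine ⟨a, b, c, hab, hac, hbc, ?_⟩
    intro T hT
    rw [isSection_compl]
    intro B hB
    by_cases hBB : B = B1
    · rw [hBB, hBe]
      rcases hT with rfl | rfl | rfl
      · have : ({a, b, c} : Finset Ω) \ {a, b} = {c} := by
          ext x
          simp only [Finset.mem_sdiff, Finset.mem_insert, Finset.mem_singleton]
          constructor
          · tauto
          · rintro rfl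
            exact ⟨Or.inr (Or.inr rfl), fun hh => hh.elim (fun hh => hac hh.symm)
              (fun hh => hbc hh.symm)⟩
        rw [this, Finset.card_singleton]
      · have : ({a, b, c} : Finset Ω) \ {a, c} = {b} := by
          ext x
          simp only [Finset.mem_sdiff, Finset.mem_insert, Finset.mem_singleton]
          constructor
          · tauto
          · rintro rfl
            exact ⟨Or.inr (Or.inl rfl), fun hh => hh.elim (fun hh => hab hh.symm)
              (fun hh => hbc hh)⟩
        rw [this, Finset.card_singleton]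
      · have : ({a, b, c} : Finset Ω) \ {b, c} = {a} := by
          ext x
          simp only [Finset.mem_sdiff, Finset.mem_insert, Finset.mem_singleton]
          constructor
          · tauto
          · rintro rfl
            exact ⟨Or.inl rfl, fun hh => hh.elim (fun hh => hab hh)
              (fun hh => hac hh)⟩
        rw [this, Finset.card_singleton]
    · rw [Finset.sdiff_eq_self_of_disjoint]
      · exact h6 B hB hBB
      · rw [Finset.disjoint_right]
        intro x hx
        refine notMem_other hB hB1 hBB ?_
        rw [hBe]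
        rcases hT with rfl | rfl | rfl <;> simp only [Finset.mem_insert, Finset.mem_singleton] at hx ⊢ <;>
          tauto
  · right
    have hc1 : B1.card = 2 := by omega
    obtain ⟨B2, hB2, h3⟩ : ∃ B ∈ P.parts.erase B1, 1 ≤ B.card - 1 := by
      by_contra hh
      push Not at hh
      have h2 : ∑ B ∈ P.parts.erase B1, (B.card - 1) = 0 := Finset.sum_eq_zero fun B hB => by
        have := hh B hB
        omega
      omega
    have hs2 := Finset.add_sum_erase (P.parts.erase B1) (fun B => B.card - 1) hB2
    have hc2 : B2.card = 2 := by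
      have := hpos B2 (Finset.mem_of_mem_erase hB2)
      omega
    have h5 : ∑ B ∈ (P.parts.erase B1).erase B2, (B.card - 1) = 0 := by
      omega
    have h6 : ∀ B ∈ P.parts, B ≠ B1 → B ≠ B2 → B.card = 1 := by
      intro B hB hne hne2
      have h7 := (Finset.sum_eq_zero_iff.mp h5) B
        (Finset.mem_erase.mpr ⟨hne2, Finset.mem_erase.mpr ⟨hne, hB⟩⟩)
      have h8 := hpos B hB
      omega
    have hne12 : B2 ≠ B1 := (Finset.mem_erase.mp hB2).1
    have hB2' := (Finset.mem_erase.mp hB2).2
    obtain ⟨a, b, hab, hBe1⟩ := Finset.card_eq_two.mp hc1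
    obtain ⟨c, d, hcd, hBe2⟩ := Finset.card_eq_two.mp hc2
    have hdis : ∀ x ∈ B1, x ∉ B2 := fun x hx =>
      notMem_other hB2' hB1 hne12 hx
    have hne : ∀ x ∈ B1, ∀ y ∈ B2, x ≠ y := by
      intro x hx y hy hxy
      exact hdis x hx (hxy ▸ hy)
    have ha : a ∈ B1 := by rw [hBe1]; simp
    have hb : b ∈ B1 := by rw [hBe1]; simp
    have hc : c ∈ B2 := by rw [hBe2]; simp
    have hd : d ∈ B2 := by rw [hBe2]; simp
    refine ⟨a, b, c, d, hab, hne a ha c hc, hne a ha d hd, hne b hb c hc, hne b hb d hd, hcd, ?_⟩
    -- a general form of the four cases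
    have hgen : ∀ x ∈ B1, ∀ y ∈ B2, IsSection P ({x, y} : Finset Ω)ᶜ := by
      intro x hx y hy
      rw [isSection_compl]
      intro B hB
      by_cases hBB1 : B = B1
      · have h7 : B \ {x, y} = B1.erase x := by
          rw [hBB1]
          ext z
          simp only [Finset.mem_sdiff, Finset.mem_insert, Finset.mem_singleton, Finset.mem_erase]
          constructor
          · tauto
          · rintro ⟨h8, h9⟩
            exact ⟨h9, fun hh => hh.elim h8 (fun hh => hne z h9 y hy hh)⟩
        rw [h7, Finset.card_erase_of_mem hx, hc1]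
      · by_cases hBB2 : B = B2
        · have h7 : B \ {x, y} = B2.erase y := by
            rw [hBB2]
            ext z
            simp only [Finset.mem_sdiff, Finset.mem_insert, Finset.mem_singleton,
              Finset.mem_erase]
            constructor
            · tauto
            · rintro ⟨h8, h9⟩
              exact ⟨h9, fun hh => hh.elim (fun hh => hne x hx z h9 hh.symm) h8⟩
          rw [h7, Finset.card_erase_of_mem hy, hc2]
        · rw [Finset.sdiff_eq_self_of_disjoint]
          · exact h6 B hB hBB1 hBB2
          · rw [Finset.disjoint_right]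
            intro z hz
            rcases Finset.mem_insert.mp hz with rfl | hz
            · exact notMem_other hB hB1 hBB1 hx
            · rw [Finset.mem_singleton] at hz
              subst hz
              exact notMem_other hB hB2' hBB2 hy
    intro T hT
    rcases hT with rfl | rfl | rfl | rfl
    · exact hgen a ha c hc
    · exact hgen a ha d hd
    · exact hgen b hb c hc
    · exact hgen b hb d hd

end Pool.Agent.Lib.MP_2f925d_al
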