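import Pool.Agent.Lib.MP_2f925d_al.HomDefs
import Pool.Agent.Lib.MP_2f925d_al.Partition
import Pool.Agent.Lib.MP_c27c22_co.Ramsey

/-!
# Good sets: subsets of images of `T`
-/

set_option autoImplicit false

namespace Pool.Agent.Lib.MP_2f925d_al

variable {Ω : Type*} [Fintype Ω] [DecidableEq Ω]

/-- `U` is contained in an image of `T`. -/
def Good (G : Subgroup (Equiv.Perm Ω)) (T U : Finset Ω) : Prop := ∃ g ∈ G, U ⊆ T.image g

omit [Fintype Ω] in
theorem Good.mono {G : Subgroup (Equiv.Perm Ω)} {T U V : Finset Ω} (h : Good G T V)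
    (hUV : U ⊆ V) : Good G T U := by
  obtain ⟨g, hg, h2⟩ := h
  exact ⟨g, hg, hUV.trans h2⟩

omit [Fintype Ω] in
theorem Good.image {G : Subgroup (Equiv.Perm Ω)} {T U : Finset Ω} (h : Good G T U)
    {k : Equiv.Perm Ω} (hk : k ∈ G) : Good G T (U.image k) := by
  obtain ⟨g, hg, h2⟩ := h
  refine ⟨k * g, G.mul_mem hk hg, ?_⟩
  have h3 : T.image (k * g : Equiv.Perm Ω) = (T.image g).image k := by
    rw [Finset.image_image]
    rfl
  rw [h3]
  exact Finset.image_subset_image h2

omit [Fintype Ω] in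
theorem image_inv_image (k : Equiv.Perm Ω) (U : Finset Ω) :
    (U.image k).image (k⁻¹ : Equiv.Perm Ω) = U := by
  rw [Finset.image_image]
  have : ((k⁻¹ : Equiv.Perm Ω) : Ω → Ω) ∘ (k : Ω → Ω) = id := by
    funext x
    simp
  rw [this, Finset.image_id]

omit [Fintype Ω] in
theorem good_image_iff {G : Subgroup (Equiv.Perm Ω)} {T U : Finset Ω} {k : Equiv.Perm Ω}
    (hk : k ∈ G) : Good G T (U.image k) ↔ Good G T U := by
  constructor
  · intro h
    have h1 := h.image (G.inv_mem hk)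
    rwa [image_inv_image] at h1
  · intro h
    exact h.image hk

omit [Fintype Ω] in
theorem good_empty {G : Subgroup (Equiv.Perm Ω)} {T : Finset Ω} : Good G T ∅ :=
  ⟨1, G.one_mem, Finset.empty_subset _⟩

/-- If every set with `t + 1` points contains an image of `T`, then every set with `i + 1` points,
`i ≤ t`, contains a good subset with `i` points. -/
theorem erase_good {G : Subgroup (Equiv.Perm Ω)} {T : Finset Ω} {t : ℕ} (hT : T.card = t)
    (hn : t + 1 ≤ Fintype.card Ω)
    (hK : ∀ W : Finset Ω, W.card = t + 1 → ∃ g ∈ G, T.image g ⊆ W) {i : ℕ} (hi : i ≤ t)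
    (W : Finset Ω) (hW : W.card = i + 1) : ∃ v ∈ W, Good G T (W.erase v) := by
  obtain ⟨W', hWW', _, hW'⟩ := Finset.exists_subsuperset_card_eq (Finset.subset_univ W)
    (show W.card ≤ t + 1 by omega) (by rw [Finset.card_univ]; exact hn)
  obtain ⟨g, hg, hg2⟩ := hK W' hW'
  have hc : (T.image g).card = t := by
    rw [Finset.card_image_of_injective _ g.injective, hT]
  by_cases hsub : W ⊆ T.image g
  · obtain ⟨v, hv⟩ : W.Nonempty := by
      rw [← Finset.card_pos]
      omega
    exact ⟨v, hv, g, hg, (Finset.erase_subset _ _).trans hsub⟩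
  · rw [Finset.not_subset] at hsub
    obtain ⟨v, hv, hvT⟩ := hsub
    refine ⟨v, hv, g, hg, ?_⟩
    have h1 : T.image g ⊆ W'.erase v := fun x hx =>
      Finset.mem_erase.mpr ⟨fun h => hvT (h ▸ hx), hg2 hx⟩
    have h2 : T.image g = W'.erase v := by
      refine Finset.eq_of_subset_of_card_le h1 ?_
      rw [Finset.card_erase_of_mem (hWW' hv), hW', hc]
      exact le_rfl
    rw [h2]
    exact Finset.erase_subset_erase v hWW'

/-- Ramsey's theorem for subsets of a large finite type. -/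
theorem ramsey_type (r m : ℕ) {κ : Type} [Finite κ] :
    ∃ M : ℕ, ∀ (Ω : Type*) [Fintype Ω] [DecidableEq Ω], M ≤ Fintype.card Ω → ∀ f : Finset Ω → κ,
      ∃ Y : Finset Ω, Y.card = m ∧ ∃ c, ∀ Z, Z ⊆ Y → Z.card = r → f Z = c := by
  obtain ⟨M, hM⟩ := Pool.Agent.Lib.MP_c27c22_co.ramsey_finset r m (κ := κ)
  refine ⟨M, fun Ω _ _ hΩ f => ?_⟩
  let e := Fintype.equivFin Ω
  let ι : Ω ↪ ℕ := e.toEmbedding.trans Fin.valEmbedding
  have hX : M ≤ ((Finset.univ : Finset Ω).map ι).card := by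
    rw [Finset.card_map, Finset.card_univ]
    exact hΩ
  obtain ⟨Y, hY, hYm, c, hc⟩ := hM _ hX (fun S => f (Finset.univ.filter (fun x => ι x ∈ S)))
  refine ⟨Finset.univ.filter (fun x => ι x ∈ Y), ?_, c, ?_⟩
  · rw [← hYm, ← Finset.card_map ι]
    congr 1
    ext y
    simp only [Finset.mem_map, Finset.mem_filter, Finset.mem_univ, true_and]
    constructor
    · rintro ⟨x, hx, rfl⟩
      exact hx
    · intro hy
      obtain ⟨x, _, hx⟩ := Finset.mem_map.mp (hY hy)
      exact ⟨x, by rw [hx]; exact hy, hx⟩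
  · intro Z hZ hZr
    have h1 := hc (Z.map ι) (by
      intro y hy
      obtain ⟨x, hx, rfl⟩ := Finset.mem_map.mp hy
      exact (Finset.mem_filter.mp (hZ hx)).2) (by rw [Finset.card_map, hZr])
    have h2 : Finset.univ.filter (fun x => ι x ∈ Z.map ι) = Z := by
      ext x
      simp
    rw [h2] at h1
    exact h1

/-- For large `n` all subsets of `T` with `i` points are in one orbit. -/
theorem single_orbit (t i : ℕ) : ∃ M : ℕ, ∀ (Ω : Type*) [Fintype Ω] [DecidableEq Ω],
    M ≤ Fintype.card Ω → ∀ (G : Subgroup (Equiv.Perm Ω)) (T : Finset Ω), T.card = t →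
    (∀ W : Finset Ω, W.card = t + 1 → ∃ g ∈ G, T.image g ⊆ W) →
    ∀ U V : Finset Ω, U.card = i → V.card = i → Good G T U → Good G T V →
      ∃ g ∈ G, U.image g = V := by
  obtain ⟨M, hM⟩ := ramsey_type i (t + 1) (κ := Set (Set (Fin t)))
  refine ⟨M, fun Ω _ _ hΩ G T hT hK => ?_⟩
  classical
  let e : T ≃ Fin t := (Finset.equivFin T).trans (finCongr hT)
  -- the colour of a set `U`: the subsets of `T` to which it is equivalent
  let f : Finset Ω → Set (Set (Fin t)) := fun U =>
    {A | ∃ V : Finset Ω, V ⊆ T ∧ (∃ g ∈ G, U.image g = V) ∧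
      A = {k | ((e.symm k : T) : Ω) ∈ V}}
  obtain ⟨Y, hY, c, hc⟩ := hM Ω hΩ f
  obtain ⟨g, hg, hgY⟩ := hK Y hY
  have hinj : ∀ V V' : Finset Ω, V ⊆ T → V' ⊆ T →
      ({k | ((e.symm k : T) : Ω) ∈ V} : Set (Fin t)) = {k | ((e.symm k : T) : Ω) ∈ V'} →
      V = V' := by
    intro V V' hV hV' h
    ext x
    constructor
    · intro hx
      have h1 : e ⟨x, hV hx⟩ ∈ ({k | ((e.symm k : T) : Ω) ∈ V} : Set (Fin t)) := by
        simpa using hx
      rw [h] at h1
      simpa using h1
    · intro hx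
      have h1 : e ⟨x, hV' hx⟩ ∈ ({k | ((e.symm k : T) : Ω) ∈ V'} : Set (Fin t)) := by
        simpa using hx
      rw [← h] at h1
      simpa using h1
  have hT1 : ∀ V V' : Finset Ω, V ⊆ T → V' ⊆ T → V.card = i → V'.card = i →
      ∃ k ∈ G, V.image k = V' := by
    intro V V' hV hV' hVi hVi'
    have h1 : f (V.image g) = f (V'.image g) := by
      rw [hc (V.image g) ((Finset.image_subset_image hV).trans hgY)
        (by rw [Finset.card_image_of_injective _ g.injective, hVi]),
        hc (V'.image g) ((Finset.image_subset_image hV').trans hgY)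
        (by rw [Finset.card_image_of_injective _ g.injective, hVi'])]
    have h2 : ({k | ((e.symm k : T) : Ω) ∈ V'} : Set (Fin t)) ∈ f (V'.image g) :=
      ⟨V', hV', ⟨g⁻¹, G.inv_mem hg, image_inv_image g V'⟩, rfl⟩
    rw [← h1] at h2
    obtain ⟨V'', hV'', ⟨k, hk, hk2⟩, h3⟩ := h2
    have h4 := hinj V' V'' hV' hV'' h3
    refine ⟨k * g, G.mul_mem hk hg, ?_⟩
    rw [h4, ← hk2, Finset.image_image]
    rfl
  intro U V hU hV hUg hVg
  obtain ⟨k, hk, hk2⟩ := hUg
  obtain ⟨l, hl, hl2⟩ := hVg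
  have h1 : U.image (k⁻¹ : Equiv.Perm Ω) ⊆ T := by
    have := Finset.image_subset_image (f := (k⁻¹ : Equiv.Perm Ω)) hk2
    rwa [image_inv_image] at this
  have h2 : V.image (l⁻¹ : Equiv.Perm Ω) ⊆ T := by
    have := Finset.image_subset_image (f := (l⁻¹ : Equiv.Perm Ω)) hl2
    rwa [image_inv_image] at this
  obtain ⟨m, hm, hm2⟩ := hT1 _ _ h1 h2
    (by rw [Finset.card_image_of_injective _ (k⁻¹ : Equiv.Perm Ω).injective, hU])
    (by rw [Finset.card_image_of_injective _ (l⁻¹ : Equiv.Perm Ω).injective, hV])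
  refine ⟨l * (m * k⁻¹), G.mul_mem hl (G.mul_mem hm (G.inv_mem hk)), ?_⟩
  have h5 : U.image (l * (m * k⁻¹) : Equiv.Perm Ω) =
      ((U.image (k⁻¹ : Equiv.Perm Ω)).image m).image l := by
    rw [Finset.image_image, Finset.image_image]
    rfl
  rw [h5, hm2]
  have h6 := image_inv_image (l⁻¹) V
  rw [inv_inv] at h6
  exact h6

/-- A universal set gives the hypothesis of the lemmas above. -/
theorem universal_block {G : Subgroup (Equiv.Perm Ω)} {S : Finset Ω} {t : ℕ}
    (hS : IsUniversal G (Fintype.card Ω - t) S) (W : Finset Ω)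
    (hW : W.card = t + 1) : ∃ g ∈ G, Sᶜ.image g ⊆ W := by
  have hle : W.card ≤ Fintype.card Ω := Finset.card_le_univ _
  let P : Finpartition (Finset.univ : Finset Ω) :=
    (⊥ : Finpartition (Wᶜ)).extend (b := W)
      (by intro h; rw [Finset.bot_eq_empty] at h; rw [h] at hW; simp at hW)
      disjoint_compl_left (by rw [Finset.sup_eq_union, Finset.union_comm]; exact Finset.union_compl _)
  have hP : P.parts.card = Fintype.card Ω - t := by
    rw [Finpartition.card_extend, Finpartition.card_bot, Finset.card_compl]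
    omega
  obtain ⟨g, hg, hsec⟩ := hS.2 P hP
  rw [image_eq_compl, isSection_compl] at hsec
  refine ⟨g, hg, fun x hx => ?_⟩
  by_contra hxW
  have hmem : ({x} : Finset Ω) ∈ P.parts := by
    refine Finset.mem_insert_of_mem ?_
    rw [Finpartition.mem_bot_iff]
    exact ⟨x, Finset.mem_compl.mpr hxW, rfl⟩
  have h1 := hsec _ hmem
  rw [Finset.sdiff_eq_empty_iff_subset.mpr (Finset.singleton_subset_iff.mpr hx)] at h1
  simp at h1

end Pool.Agent.Lib.MP_2f925d_al
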