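import Pool.Agent.Lib.MP_2f925d_al.HomA

/-!
# Bad sets with many or few extensions
-/

set_option autoImplicit false

namespace Pool.Agent.Lib.MP_2f925d_al

variable {Ω : Type*} [Fintype Ω] [DecidableEq Ω]

/-- If every set with `j - 1` points has many bad extensions, there are sets `W` with few more
than `j` points in which the bad sets have only few common points. -/
theorem exists_core (G : Subgroup (Equiv.Perm Ω)) (T : Finset Ω) {t j : ℕ} (hj : 2 ≤ j)
    (hn : j ≤ Fintype.card Ω)
    (hext : ∀ Z D : Finset Ω, Z.card = j - 1 → D.card ≤ t →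
      ∃ y, y ∉ D ∧ y ∉ Z ∧ ¬ Good G T (insert y Z)) (s : ℕ) : j + s ≤ t →
    ∃ W : Finset Ω, W.card = j + 1 + s ∧ (∃ U ⊆ W, U.card = j ∧ ¬ Good G T U) ∧
      ∃ K : Finset Ω, (∀ v ∈ W, (∀ U ⊆ W, U.card = j → ¬ Good G T U → v ∈ U) → v ∈ K) ∧
        K ⊆ W ∧ (2 * K.card + s * (s + 3) ≤ 2 * (j - 1) ∨ K = ∅) := by
  induction s with
  | zero =>
    intro hs
    obtain ⟨Z, _, hZ⟩ := Finset.exists_subset_card_eq
      (show j - 1 ≤ (Finset.univ : Finset Ω).card by rw [Finset.card_univ]; omega)
    obtain ⟨b, _, hbZ, hb⟩ := hext Z ∅ hZ (by simp)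
    obtain ⟨c, hcb, hcZ, hc⟩ := hext Z {b} hZ (by rw [Finset.card_singleton]; omega)
    rw [Finset.mem_singleton] at hcb
    have hbc : (insert b Z).card = j := by
      rw [Finset.card_insert_of_notMem hbZ, hZ]
      omega
    have hcc : (insert c Z).card = j := by
      rw [Finset.card_insert_of_notMem hcZ, hZ]
      omega
    refine ⟨insert c (insert b Z), ?_, ⟨insert b Z, Finset.subset_insert _ _, hbc, hb⟩, Z, ?_,
      (Finset.subset_insert _ _).trans (Finset.subset_insert _ _), Or.inl (by omega)⟩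
    · rw [Finset.card_insert_of_notMem, hbc]
      simp [hcb, hcZ]
    · intro v _ hcore
      have h1 := hcore _ (Finset.subset_insert _ _) hbc hb
      have h2 := hcore (insert c Z) (Finset.insert_subset_insert _ (Finset.subset_insert _ _))
        hcc hc
      rcases Finset.mem_insert.mp h1 with h1 | h1
      · rcases Finset.mem_insert.mp h2 with h2 | h2
        · exact absurd (h2.symm.trans h1) hcb
        · exact h2
      · exact h1
  | succ s ih =>
    intro hs
    obtain ⟨W, hW, ⟨U0, hU0W, hU0, hU0g⟩, K, hK, hKW, hKc⟩ := ih (by omega)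
    -- the points which are thrown away
    obtain ⟨D, hDW, hD, hDK⟩ : ∃ D ⊆ W, D.card = s + 2 ∧ (D ⊆ K ∨ K ⊆ D) := by
      by_cases h1 : s + 2 ≤ K.card
      · obtain ⟨D, hDK, hD⟩ := Finset.exists_subset_card_eq h1
        exact ⟨D, hDK.trans hKW, hD, Or.inl hDK⟩
      · obtain ⟨D, hKD, hDW, hD⟩ := Finset.exists_subsuperset_card_eq hKW
          (show K.card ≤ s + 2 by omega) (by omega)
        exact ⟨D, hDW, hD, Or.inr hKD⟩
    have hY : (W \ D).card = j - 1 := by
      rw [Finset.card_sdiff_of_subset hDW, hW, hD]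
      omega
    obtain ⟨y, hyD, hyY, hy⟩ := hext (W \ D) D hY (by omega)
    have hyW : y ∉ W := by
      intro h
      by_cases h1 : y ∈ D
      · exact hyD h1
      · exact hyY (Finset.mem_sdiff.mpr ⟨h, h1⟩)
    refine ⟨insert y W, ?_, ⟨U0, hU0W.trans (Finset.subset_insert _ _), hU0, hU0g⟩, K \ D, ?_,
      (Finset.sdiff_subset.trans hKW).trans (Finset.subset_insert _ _), ?_⟩
    · rw [Finset.card_insert_of_notMem hyW, hW]
      omega
    · intro v _ hcore
      have h1 := hcore U0 (hU0W.trans (Finset.subset_insert _ _)) hU0 hU0g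
      have h2 := hcore (insert y (W \ D))
        (Finset.insert_subset_insert _ Finset.sdiff_subset)
        (by rw [Finset.card_insert_of_notMem hyY, hY]; omega) hy
      have hvW := hU0W h1
      have h3 : v ∈ K := hK v hvW fun U hU hUc hUg =>
        hcore U (hU.trans (Finset.subset_insert _ _)) hUc hUg
      rcases Finset.mem_insert.mp h2 with h2 | h2
      · exact absurd (h2 ▸ hvW) hyW
      · exact Finset.mem_sdiff.mpr ⟨h3, (Finset.mem_sdiff.mp h2).2⟩
    · rcases hDK with h1 | h1
      · left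
        rcases hKc with h2 | h2
        · have h3 : (K \ D).card = K.card - (s + 2) := by
            rw [Finset.card_sdiff_of_subset h1, hD]
          have h4 : s + 2 ≤ K.card := by
            rw [← hD]
            exact Finset.card_le_card h1
          rw [h3]
          have h5 : 2 * (K.card - (s + 2)) + 2 * (s + 2) = 2 * K.card := by omega
          have h6 : (s + 1) * (s + 1 + 3) = s * (s + 3) + 2 * (s + 2) := by ring
          omega
        · exfalso
          rw [h2] at h1
          have h3 := Finset.card_le_card h1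
          rw [hD, Finset.card_empty] at h3
          omega
      · right
        exact Finset.sdiff_eq_empty_iff_subset.mpr h1

theorem no_big {G : Subgroup (Equiv.Perm Ω)} {T : Finset Ω} {t j r : ℕ} (hj : 2 ≤ j)
    (hT : T.card = t) (hn : t + 1 ≤ Fintype.card Ω)
    (hK : ∀ W : Finset Ω, W.card = t + 1 → ∃ g ∈ G, T.image g ⊆ W)
    (hext : ∀ Z D : Finset Ω, Z.card = j - 1 → D.card ≤ t →
      ∃ y, y ∉ D ∧ y ∉ Z ∧ ¬ Good G T (insert y Z)) (hjr : j + r ≤ t)
    (hr : 2 * j ≤ (r + 1) * (r + 2)) : False := by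
  obtain ⟨W, hW, _, K, hKc, _, hKe⟩ := exists_core G T hj (by omega) hext r hjr
  have hK0 : K = ∅ := by
    rcases hKe with h | h
    · have h1 : (r + 1) * (r + 2) = r * (r + 3) + 2 := by ring
      have h2 : K.card = 0 := by omega
      exact Finset.card_eq_zero.mp h2
    · exact h
  obtain ⟨v, hv, hg⟩ := erase_good hT hn hK (i := j + r) hjr W (by omega)
  have h1 : v ∈ K := by
    apply hKc v hv
    intro U hU hUc hUg
    by_contra hvU
    refine hUg (hg.mono fun x hx => Finset.mem_erase.mpr ⟨?_, hU hx⟩)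
    rintro rfl
    exact hvU hx
  rw [hK0] at h1
  simp at h1

theorem count_bound {n j t : ℕ} (hj : 3 ≤ j) (hn : 2 * (j + 2) ≤ n)
    (h : n.choose (j + 2) ≤ n.choose (j - 3) * (n * (n * (n * (n * (t * t)))))) :
    n ≤ 2 ^ (j + 2) * (j + 2).factorial * (t * t) := by
  have h1 : n.choose (j - 3) ≤ n ^ (j - 3) := Nat.choose_le_pow n (j - 3)
  have h2 := Nat.pow_sub_le_descFactorial n (j + 2)
  rw [Nat.descFactorial_eq_factorial_mul_choose] at h2
  have h3 : n ^ (j + 2) ≤ (2 * (n + 1 - (j + 2))) ^ (j + 2) :=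
    Nat.pow_le_pow_left (by omega) _
  rw [mul_pow] at h3
  have h4 : n ^ (j - 3) * (n * (n * (n * (n * (t * t))))) = n ^ (j + 1) * (t * t) := by
    obtain ⟨k, rfl⟩ := Nat.exists_eq_add_of_le hj
    rw [show 3 + k - 3 = k by omega, show 3 + k + 1 = k + 4 by omega]
    ring
  have h5 : n.choose (j + 2) ≤ n ^ (j + 1) * (t * t) := by
    rw [← h4]
    exact h.trans (Nat.mul_le_mul_right _ h1)
  have h6 : n ^ (j + 1) * n ≤ n ^ (j + 1) * (2 ^ (j + 2) * (j + 2).factorial * (t * t)) := by
    calc n ^ (j + 1) * n = n ^ (j + 2) := by ring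
      _ ≤ 2 ^ (j + 2) * (n + 1 - (j + 2)) ^ (j + 2) := h3
      _ ≤ 2 ^ (j + 2) * ((j + 2).factorial * n.choose (j + 2)) := Nat.mul_le_mul_left _ h2
      _ ≤ 2 ^ (j + 2) * ((j + 2).factorial * (n ^ (j + 1) * (t * t))) :=
        Nat.mul_le_mul_left _ (Nat.mul_le_mul_left _ h5)
      _ = n ^ (j + 1) * (2 ^ (j + 2) * (j + 2).factorial * (t * t)) := by ring
  exact Nat.le_of_mul_le_mul_left h6 (pow_pos (by omega) _)

/-- The bad extensions of a set. -/
noncomputable def bad (G : Subgroup (Equiv.Perm Ω)) (T Z : Finset Ω) : Finset Ω := by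
  classical
  exact Finset.univ.filter (fun y => y ∉ Z ∧ ¬ Good G T (insert y Z))

theorem mem_bad {G : Subgroup (Equiv.Perm Ω)} {T Z : Finset Ω} {y : Ω} :
    y ∈ bad G T Z ↔ y ∉ Z ∧ ¬ Good G T (insert y Z) := by
  simp [bad]

theorem bad_image {G : Subgroup (Equiv.Perm Ω)} {T Z : Finset Ω} {g : Equiv.Perm Ω}
    (hg : g ∈ G) {y : Ω} : g y ∈ bad G T (Z.image g) ↔ y ∈ bad G T Z := by
  rw [mem_bad, mem_bad, ← Finset.image_insert, good_image_iff hg, Finset.mem_image]
  constructor
  · rintro ⟨h1, h2⟩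
    exact ⟨fun h => h1 ⟨y, h, rfl⟩, h2⟩
  · rintro ⟨h1, h2⟩
    refine ⟨?_, h2⟩
    rintro ⟨z, hz, hzy⟩
    exact h1 (g.injective hzy ▸ hz)

/-- The special sets with `j + 1` points. -/
def Spec (G : Subgroup (Equiv.Perm Ω)) (T : Finset Ω) (j : ℕ) (Q : Finset Ω) : Prop :=
  ∃ (S : Finset Ω) (w a b x y : Ω), S.card = j - 3 ∧ w ∉ S ∧ a ∉ insert w S ∧
    b ∉ insert w S ∧ x ∈ bad G T (insert a (insert w S)) ∧
    y ∈ bad G T (insert b (insert w S)) ∧ Q = insert a (insert x (insert b (insert y S)))

theorem Spec.image {G : Subgroup (Equiv.Perm Ω)} {T : Finset Ω} {j : ℕ} {Q : Finset Ω}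
    (h : Spec G T j Q) {g : Equiv.Perm Ω} (hg : g ∈ G) : Spec G T j (Q.image g) := by
  obtain ⟨S, w, a, b, x, y, h1, h2, h3, h4, h5, h6, h7⟩ := h
  have hmem : ∀ (z : Ω) (A : Finset Ω), z ∉ A → g z ∉ A.image g := by
    intro z A hz hz2
    obtain ⟨u, hu, huz⟩ := Finset.mem_image.mp hz2
    exact hz (g.injective huz ▸ hu)
  refine ⟨S.image g, g w, g a, g b, g x, g y, ?_, hmem _ _ h2, ?_, ?_, ?_, ?_, ?_⟩
  · rw [Finset.card_image_of_injective _ g.injective, h1]
  · rw [← Finset.image_insert]
    exact hmem _ _ h3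
  · rw [← Finset.image_insert]
    exact hmem _ _ h4
  · rw [← Finset.image_insert, ← Finset.image_insert]
    exact (bad_image hg).mpr h5
  · rw [← Finset.image_insert, ← Finset.image_insert]
    exact (bad_image hg).mpr h6
  · rw [h7]
    simp only [Finset.image_insert]

/-- If every set with `j - 1` points has at least one, but at most `t` bad extensions, we get a
contradiction for large `n`. -/
theorem no_small {G : Subgroup (Equiv.Perm Ω)} {T : Finset Ω} {t j : ℕ} (hj : 2 ≤ j)
    (hjt : j + 1 ≤ t) (hT : T.card = t)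
    (hK : ∀ W : Finset Ω, W.card = t + 1 → ∃ g ∈ G, T.image g ⊆ W)
    (hE : ∀ Z : Finset Ω, Z.card = j - 1 → (bad G T Z).card ≤ t)
    (hE1 : ∀ Z : Finset Ω, Z.card = j - 1 → (bad G T Z).Nonempty)
    (horb : ∀ U V : Finset Ω, U.card = j + 1 → V.card = j + 1 → Good G T U → Good G T V →
      ∃ g ∈ G, U.image g = V)
    (hn : 2 ^ (j + 2) * (j + 2).factorial * (t * t) + 3 * t + 4 < Fintype.card Ω) : False := by
  classical
  -- a bad set with `j` points
  obtain ⟨Z, _, hZ⟩ := Finset.exists_subset_card_eq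
    (show j - 1 ≤ (Finset.univ : Finset Ω).card by rw [Finset.card_univ]; omega)
  obtain ⟨a, ha⟩ := hE1 Z hZ
  obtain ⟨haZ, hag⟩ := mem_bad.mp ha
  obtain ⟨x, hxZ⟩ : Z.Nonempty := by
    rw [← Finset.card_pos]
    omega
  set X := Z.erase x with hX
  have hXc : X.card = j - 2 := by
    rw [hX, Finset.card_erase_of_mem hxZ, hZ]
    omega
  have hxX : x ∉ X := Finset.notMem_erase _ _
  have hZX : Z = insert x X := (Finset.insert_erase hxZ).symm
  have haX : a ∉ X := fun h => haZ (Finset.mem_of_mem_erase h)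
  have hax : a ≠ x := by
    rintro rfl
    exact haZ hxZ
  rw [hZX] at hag
  obtain ⟨c, hc⟩ : ∃ c, c ∉ bad G T (insert a X) ∪ bad G T (insert x X) ∪
      insert a (insert x X) := by
    by_contra hh
    push Not at hh
    have h1 : (Finset.univ : Finset Ω) ⊆ bad G T (insert a X) ∪ bad G T (insert x X) ∪
      insert a (insert x X) := fun z _ => hh z
    have h2 := Finset.card_le_card h1
    rw [Finset.card_univ] at h2
    have h3 := Finset.card_union_le (bad G T (insert a X) ∪ bad G T (insert x X))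
      (insert a (insert x X))
    have h4 := Finset.card_union_le (bad G T (insert a X)) (bad G T (insert x X))
    have h5 := hE (insert a X) (by rw [Finset.card_insert_of_notMem haX, hXc]; omega)
    have h6 := hE (insert x X) (by rw [Finset.card_insert_of_notMem hxX, hXc]; omega)
    have h7 := Finset.card_insert_le a (insert x X)
    have h8 := Finset.card_insert_le x X
    have h9 : 0 ≤ 2 ^ (j + 2) * (j + 2).factorial * (t * t) := Nat.zero_le _
    omega
  simp only [Finset.mem_union, Finset.mem_insert, not_or] at hc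
  obtain ⟨⟨hc1, hc2⟩, hca, hcx, hcX⟩ := hc
  obtain ⟨y, hy⟩ := hE1 (insert c X) (by rw [Finset.card_insert_of_notMem hcX, hXc]; omega)
  obtain ⟨hycX, hyg⟩ := mem_bad.mp hy
  simp only [Finset.mem_insert, not_or] at hycX
  obtain ⟨hyc, hyX⟩ := hycX
  have hya : y ≠ a := by
    rintro rfl
    apply hc1
    rw [mem_bad, Finset.insert_comm]
    refine ⟨?_, hyg⟩
    simp [hca, hcX]
  have hyx : y ≠ x := by
    rintro rfl
    apply hc2
    rw [mem_bad, Finset.insert_comm]
    refine ⟨?_, hyg⟩
    simp [hcx, hcX]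
  set W := insert y (insert c (insert a (insert x X))) with hW
  have hWc : W.card = j + 1 + 1 := by
    rw [hW, Finset.card_insert_of_notMem (by simp [hyc, hya, hyx, hyX]),
      Finset.card_insert_of_notMem (by simp [hca, hcx, hcX]),
      Finset.card_insert_of_notMem (by simp [hax, haX]),
      Finset.card_insert_of_notMem hxX, hXc]
    omega
  obtain ⟨v, hvW, hvg⟩ := erase_good hT (by omega) hK (i := j + 1) hjt W hWc
  have hvX : v ∈ X := by
    have h1 : v ∈ insert a (insert x X) := by
      by_contra hv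
      refine hag (hvg.mono fun z hz => Finset.mem_erase.mpr ⟨?_, ?_⟩)
      · rintro rfl
        exact hv hz
      · rw [hW]
        exact Finset.mem_insert_of_mem (Finset.mem_insert_of_mem hz)
    have h2 : v ∈ insert y (insert c X) := by
      by_contra hv
      refine hyg (hvg.mono fun z hz => Finset.mem_erase.mpr ⟨?_, ?_⟩)
      · rintro rfl
        exact hv hz
      · rw [hW]
        simp only [Finset.mem_insert] at hz ⊢
        tauto
    simp only [Finset.mem_insert] at h1 h2
    rcases h1 with h1 | h1 | h1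
    · rcases h2 with h2 | h2 | h2
      · exact absurd (h2.symm.trans h1) hya
      · exact absurd (h2.symm.trans h1) hca
      · exact h2
    · rcases h2 with h2 | h2 | h2
      · exact absurd (h2.symm.trans h1) hyx
      · exact absurd (h2.symm.trans h1) hcx
      · exact h2
    · exact h1
  have hj3 : 3 ≤ j := by
    have : 0 < X.card := Finset.card_pos.mpr ⟨v, hvX⟩
    omega
  -- all good sets with `j + 1` points are special
  have hspec : ∀ Q : Finset Ω, Q.card = j + 1 → Good G T Q → Spec G T j Q := by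
    have h0 : Spec G T j (W.erase v) := by
      have hX2 : insert v (X.erase v) = X := Finset.insert_erase hvX
      refine ⟨X.erase v, v, a, c, x, y, ?_, Finset.notMem_erase _ _, ?_, ?_, ?_, ?_, ?_⟩
      · rw [Finset.card_erase_of_mem hvX, hXc]
        omega
      · rw [hX2]; exact haX
      · rw [hX2]; exact hcX
      · rw [hX2, mem_bad, Finset.insert_comm]
        refine ⟨?_, hag⟩
        simp [hax.symm, hxX]
      · rw [hX2]; exact hy
      · have hva : v ≠ a := by rintro rfl; exact haX hvX
        have hvx : v ≠ x := by rintro rfl; exact hxX hvX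
        have hvc : v ≠ c := by rintro rfl; exact hcX hvX
        have hvy : v ≠ y := by rintro rfl; exact hyX hvX
        ext z
        simp only [hW, Finset.mem_erase, Finset.mem_insert]
        constructor
        · rintro ⟨h1, h2⟩
          tauto
        · rintro (h1 | h1 | h1 | h1 | h1)
          · exact ⟨by rw [h1]; exact hva.symm, by tauto⟩
          · exact ⟨by rw [h1]; exact hvx.symm, by tauto⟩
          · exact ⟨by rw [h1]; exact hvc.symm, by tauto⟩
          · exact ⟨by rw [h1]; exact hvy.symm, by tauto⟩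
          · exact ⟨h1.1, by tauto⟩
    intro Q hQ hQg
    obtain ⟨g, hg, hg2⟩ := horb (W.erase v) Q
      (by rw [Finset.card_erase_of_mem hvW, hWc]; rfl) hQ hvg hQg
    rw [← hg2]
    exact h0.image hg
  -- an enumeration of the bad extensions
  have hne : Nonempty Ω := ⟨a⟩
  have henum : ∀ Z : Finset Ω, ∃ f : Fin t → Ω, Z.card = j - 1 →
      ∀ y ∈ bad G T Z, ∃ k, f k = y := by
    intro Z
    by_cases hZ : Z.card = j - 1
    · have h1 := hE Z hZ
      let e := (bad G T Z).equivFin
      refine ⟨fun k => if h : (k : ℕ) < (bad G T Z).card then (e.symm ⟨k, h⟩ : Ω) else a,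
        fun _ y hy => ?_⟩
      have h2 := (e ⟨y, hy⟩).2
      refine ⟨⟨(e ⟨y, hy⟩ : ℕ), by omega⟩, ?_⟩
      simp
    · exact ⟨fun _ => a, fun h => absurd h hZ⟩
  choose e he using henum
  let F : Finset Ω × Ω × Ω × Ω × Ω × Fin t × Fin t → Finset Ω := fun p =>
    insert p.2.1 (insert p.2.2.2.1 (insert (e (insert p.2.2.2.1 (insert p.2.2.1 p.1)) p.2.2.2.2.2.1)
      (insert p.2.2.2.2.1 (insert (e (insert p.2.2.2.2.1 (insert p.2.2.1 p.1)) p.2.2.2.2.2.2)
        p.1))))
  have hcov : Finset.powersetCard (j + 2) (Finset.univ : Finset Ω) ⊆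
      ((Finset.powersetCard (j - 3) (Finset.univ : Finset Ω)) ×ˢ
        (Finset.univ : Finset (Ω × Ω × Ω × Ω × Fin t × Fin t))).image F := by
    intro R hR
    rw [Finset.mem_powersetCard] at hR
    obtain ⟨v, hvR, hvg⟩ := erase_good hT (by omega) hK (i := j + 1) hjt R hR.2
    obtain ⟨S, w, a, b, x, y, h1, h2, h3, h4, h5, h6, h7⟩ := hspec (R.erase v)
      (by rw [Finset.card_erase_of_mem hvR, hR.2]; rfl) hvg
    obtain ⟨k, hk⟩ := he (insert a (insert w S)) (by
      rw [Finset.card_insert_of_notMem h3, Finset.card_insert_of_notMem h2, h1]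
      omega) x h5
    obtain ⟨l, hl⟩ := he (insert b (insert w S)) (by
      rw [Finset.card_insert_of_notMem h4, Finset.card_insert_of_notMem h2, h1]
      omega) y h6
    rw [Finset.mem_image]
    refine ⟨(S, v, w, a, b, k, l), ?_, ?_⟩
    · rw [Finset.mem_product, Finset.mem_powersetCard]
      exact ⟨⟨Finset.subset_univ _, h1⟩, Finset.mem_univ _⟩
    · simp only [F, hk, hl]
      rw [← h7, Finset.insert_erase hvR]
  have hcard := (Finset.card_le_card hcov).trans Finset.card_image_le
  rw [Finset.card_powersetCard, Finset.card_product, Finset.card_powersetCard] at hcard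
  simp only [Finset.card_univ, Fintype.card_prod, Fintype.card_fin] at hcard
  have h9 := count_bound hj3 (by omega) hcard
  omega

end Pool.Agent.Lib.MP_2f925d_al
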