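import Pool.Agent.Lib.MP_2f925d_al.HomB

/-!
# The weak `(n - t)`-universal transversal property for large `n`
-/

set_option autoImplicit false

namespace Pool.Agent.Lib.MP_2f925d_al

/-- The main step. -/
theorem hom_main (t r : ℕ) (hr : 2 * (t - r) ≤ (r + 1) * (r + 2)) : ∃ N : ℕ,
    ∀ (Ω : Type*) [Fintype Ω] [DecidableEq Ω], N ≤ Fintype.card Ω →
    ∀ (G : Subgroup (Equiv.Perm Ω)) (T : Finset Ω), T.card = t →
    (∀ W : Finset Ω, W.card = t + 1 → ∃ g ∈ G, T.image g ⊆ W) →
    IsHomogeneous G (t - r) ∨ FixesPointHomogeneous G t := by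
  choose M hM using fun i => single_orbit t i
  refine ⟨(Finset.range (t + 1)).sup M +
    (2 ^ (t + 2) * (t + 2).factorial * (t * t) + 3 * t + 5), ?_⟩
  intro Ω _ _ hΩ G T hT hK
  classical
  have horb : ∀ i ≤ t, ∀ U V : Finset Ω, U.card = i → V.card = i → Good G T U → Good G T V →
      ∃ g ∈ G, U.image g = V := by
    intro i hi
    have h1 : M i ≤ (Finset.range (t + 1)).sup M :=
      Finset.le_sup (f := M) (Finset.mem_range.mpr (by omega))
    exact hM i Ω (by omega) G T hT hK
  have hn1 : t + 1 ≤ Fintype.card Ω := by omega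
  rcases Nat.eq_zero_or_pos t with ht | ht
  · left
    subst ht
    intro A B hA hB
    rw [Nat.zero_sub, Finset.card_eq_zero] at hA hB
    exact ⟨1, G.one_mem, by rw [hA, hB, Finset.image_empty]⟩
  by_cases hc : ∃ c, ¬ Good G T {c}
  · -- there is a point which is in no image of `T`
    right
    obtain ⟨c, hc⟩ := hc
    · have hd : ∀ d, d ≠ c → Good G T {d} := by
        intro d hdc
        obtain ⟨v, hv, hg⟩ := erase_good hT hn1 hK (i := 1) ht {d, c} (Finset.card_pair hdc)
        rcases Finset.mem_insert.mp hv with h | h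
        · exfalso
          apply hc
          refine hg.mono ?_
          rw [h]
          intro z hz
          rw [Finset.mem_singleton] at hz
          rw [hz]
          simp [hdc.symm]
        · rw [Finset.mem_singleton] at h
          refine hg.mono ?_
          rw [h]
          intro z hz
          rw [Finset.mem_singleton] at hz
          rw [hz]
          simp [hdc]
      refine ⟨c, ?_, ?_⟩
      · intro g hg
        by_contra hgc
        have h1 := hd (g c) hgc
        rw [← Finset.image_singleton, good_image_iff hg] at h1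
        exact hc h1
      · have hgood : ∀ A : Finset Ω, A.card = t → c ∉ A → Good G T A := by
          intro A hA hcA
          obtain ⟨v, hv, hg⟩ := erase_good hT hn1 hK (i := t) le_rfl (insert c A)
            (by rw [Finset.card_insert_of_notMem hcA, hA])
          rcases Finset.mem_insert.mp hv with h | h
          · rw [h, Finset.erase_insert hcA] at hg
            exact hg
          · exfalso
            apply hc
            refine hg.mono ?_
            intro z hz
            rw [Finset.mem_singleton] at hz
            rw [hz, Finset.mem_erase]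
            exact ⟨fun h2 => hcA (h2 ▸ h), Finset.mem_insert_self _ _⟩
        intro A B hA hB hcA hcB
        exact horb t le_rfl A B hA hB (hgood A hA hcA) (hgood B hB hcB)
  · left
    push Not at hc
    have hall : ∀ j, j ≤ t - r → ∀ U : Finset Ω, U.card = j → Good G T U := by
      intro j
      induction j using Nat.strong_induction_on with
      | _ j ih =>
      intro hj U hU
      by_contra hUg
      have hj2 : 2 ≤ j := by
        by_contra hj2
        have hj3 : j = 0 ∨ j = 1 := by omega
        rcases hj3 with h | h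
        · rw [h, Finset.card_eq_zero] at hU
          rw [hU] at hUg
          exact hUg good_empty
        · rw [h, Finset.card_eq_one] at hU
          obtain ⟨c, hc2⟩ := hU
          rw [hc2] at hUg
          exact hUg (hc c)
      have hprev : ∀ Z : Finset Ω, Z.card = j - 1 → Good G T Z := fun Z hZ =>
        ih (j - 1) (by omega) (by omega) Z hZ
      have htrans : ∀ Z Z' : Finset Ω, Z.card = j - 1 → Z'.card = j - 1 →
          ∃ g ∈ G, Z.image g = Z' := fun Z Z' hZ hZ' =>
        horb (j - 1) (by omega) Z Z' hZ hZ' (hprev Z hZ) (hprev Z' hZ')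
      have hbc : ∀ Z Z' : Finset Ω, Z.card = j - 1 → Z'.card = j - 1 →
          (bad G T Z).card = (bad G T Z').card := by
        intro Z Z' hZ hZ'
        obtain ⟨g, hg, hg2⟩ := htrans Z Z' hZ hZ'
        rw [← Finset.card_image_of_injective _ g.injective]
        congr 1
        rw [← hg2]
        ext z
        constructor
        · intro hz
          obtain ⟨y, hy, rfl⟩ := Finset.mem_image.mp hz
          exact (bad_image hg).mpr hy
        · intro hz
          refine Finset.mem_image.mpr ⟨g.symm z, ?_, by simp⟩
          rw [← bad_image hg]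
          simpa using hz
      obtain ⟨u, hu⟩ : U.Nonempty := by
        rw [← Finset.card_pos]
        omega
      have hZ0 : (U.erase u).card = j - 1 := by
        rw [Finset.card_erase_of_mem hu, hU]
      have hb0 : u ∈ bad G T (U.erase u) := by
        rw [mem_bad, Finset.insert_erase hu]
        exact ⟨Finset.notMem_erase _ _, hUg⟩
      by_cases hbig : t + 1 ≤ (bad G T (U.erase u)).card
      · refine no_big (r := r) hj2 hT hn1 hK ?_ (by omega) (by omega)
        intro Z D hZ hD
        have h1 := hbc Z (U.erase u) hZ hZ0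
        have h2 : ¬ bad G T Z ⊆ D := by
          intro h
          have := Finset.card_le_card h
          omega
        rw [Finset.not_subset] at h2
        obtain ⟨y, hy, hyD⟩ := h2
        exact ⟨y, hyD, (mem_bad.mp hy).1, (mem_bad.mp hy).2⟩
      · have hr1 : 1 ≤ r := by
          by_contra hr0
          have : r = 0 := by omega
          subst this
          omega
        refine no_small hj2 (by omega) hT hK (fun Z hZ => ?_) (fun Z hZ => ?_)
          (horb (j + 1) (by omega)) ?_
        · rw [hbc Z (U.erase u) hZ hZ0]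
          omega
        · rw [← Finset.card_pos, hbc Z (U.erase u) hZ hZ0, Finset.card_pos]
          exact ⟨u, hb0⟩
        · have h1 : 2 ^ (j + 2) * (j + 2).factorial * (t * t) ≤
              2 ^ (t + 2) * (t + 2).factorial * (t * t) := by
            refine Nat.mul_le_mul_right _ (Nat.mul_le_mul ?_ ?_)
            · exact Nat.pow_le_pow_right (by norm_num) (by omega)
            · exact Nat.factorial_le (by omega)
          omega
    intro A B hA hB
    exact horb (t - r) (by omega) A B hA hB (hall _ le_rfl A hA) (hall _ le_rfl B hB)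

/-- Every partition has a section through a given point. -/
theorem exists_section_through {Ω : Type*} [Fintype Ω] [DecidableEq Ω]
    (P : Finpartition (Finset.univ : Finset Ω)) (c : Ω) :
    ∃ R : Finset Ω, R.card = P.parts.card ∧ c ∈ R ∧ IsSection P R := by
  classical
  have hex : ∀ B : Finset Ω, ∃ x, B ∈ P.parts → (x ∈ B ∧ (c ∈ B → x = c)) := by
    intro B
    by_cases hB : B ∈ P.parts
    · by_cases hc : c ∈ B
      · exact ⟨c, fun _ => ⟨hc, fun _ => rfl⟩⟩
      · obtain ⟨x, hx⟩ := P.nonempty_of_mem_parts hB
        exact ⟨x, fun _ => ⟨hx, fun h => absurd h hc⟩⟩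
    · exact ⟨c, fun h => absurd h hB⟩
  choose f hf using hex
  have hinj : ∀ B ∈ P.parts, ∀ B' ∈ P.parts, f B ∈ B' → B = B' := by
    intro B hB B' hB' h
    by_contra hne
    exact Finset.disjoint_left.mp (P.disjoint hB hB' hne) (hf B hB).1 h
  refine ⟨P.parts.image f, ?_, ?_, ?_⟩
  · refine Finset.card_image_of_injOn ?_
    intro B hB B' hB' h
    have h' : f B = f B' := h
    refine hinj B hB B' hB' ?_
    rw [h']
    exact (hf B' hB').1
  · obtain ⟨B, hB, hcB⟩ := P.exists_mem (Finset.mem_univ c)
    exact Finset.mem_image.mpr ⟨B, hB, (hf B hB).2 hcB⟩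
  · intro B hB
    have h1 : P.parts.image f ∩ B = {f B} := by
      ext x
      rw [Finset.mem_inter, Finset.mem_image, Finset.mem_singleton]
      constructor
      · rintro ⟨⟨B', hB', rfl⟩, hx⟩
        rw [hinj B' hB' B hB hx]
      · rintro rfl
        exact ⟨⟨B, hB, rfl⟩, (hf B hB).1⟩
    rw [h1, Finset.card_singleton]

theorem image_compl_eq {Ω : Type*} [Fintype Ω] [DecidableEq Ω] (g : Equiv.Perm Ω)
    (A : Finset Ω) : Aᶜ.image g = (A.image g)ᶜ := by
  have h := image_eq_compl g Aᶜ
  rwa [compl_compl] at h

/-- The easy direction. -/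
theorem weak_of_homogeneous {Ω : Type*} [Fintype Ω] [DecidableEq Ω]
    (G : Subgroup (Equiv.Perm Ω)) {t : ℕ} (ht : t + 1 ≤ Fintype.card Ω)
    (h : IsHomogeneous G t ∨ FixesPointHomogeneous G t) : WeakUT G (Fintype.card Ω - t) := by
  have key : ∃ c : Ω, ∀ A B : Finset Ω, A.card = t → B.card = t → c ∉ A → c ∉ B →
      ∃ g ∈ G, A.image g = B := by
    rcases h with h | ⟨c, _, h⟩
    · have hne : Nonempty Ω := Fintype.card_pos_iff.mp (by omega)
      obtain ⟨c⟩ := hne
      exact ⟨c, fun A B hA hB _ _ => h A B hA hB⟩
    · exact ⟨c, h⟩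
  obtain ⟨c, hc⟩ := key
  obtain ⟨A, hAc, hA⟩ := Finset.exists_subset_card_eq
    (show t ≤ ((Finset.univ : Finset Ω).erase c).card by
      rw [Finset.card_erase_of_mem (Finset.mem_univ c), Finset.card_univ]
      omega)
  have hcA : c ∉ A := fun h => (Finset.mem_erase.mp (hAc h)).1 rfl
  refine ⟨Aᶜ, ?_, ?_⟩
  · rw [Finset.card_compl, hA]
  · intro P hP
    obtain ⟨R, hR, hcR, hsec⟩ := exists_section_through P c
    obtain ⟨g, hg, hg2⟩ := hc A Rᶜ hA
      (by
        have := Finset.card_compl_add_card R
        omega) hcA
      (by simpa using hcR)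
    refine ⟨g, hg, ?_⟩
    rw [image_compl_eq, hg2, compl_compl]
    exact hsec

/-- Groups with the weak `(n - t)`-universal transversal property for large `n`, `t = s + r`. -/
theorem hom_result (r s : ℕ) (hr : 2 * s ≤ (r + 1) * (r + 2)) : ∃ N : ℕ,
    ∀ (Ω : Type*) [Fintype Ω] [DecidableEq Ω], N ≤ Fintype.card Ω →
    ∀ G : Subgroup (Equiv.Perm Ω),
      (WeakUT G (Fintype.card Ω - (s + r)) →
        IsHomogeneous G s ∨ FixesPointHomogeneous G (s + r)) ∧
      (IsHomogeneous G (s + r) ∨ FixesPointHomogeneous G (s + r) →
        WeakUT G (Fintype.card Ω - (s + r))) := by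
  obtain ⟨N, hN⟩ := hom_main (s + r) r (by rw [Nat.add_sub_cancel]; exact hr)
  refine ⟨N + (s + r) + 1, fun Ω _ _ hΩ G =>
    ⟨?_, fun h => weak_of_homogeneous G (by omega) h⟩⟩
  rintro ⟨S, hS⟩
  have h3 := hN Ω (by omega) G Sᶜ ?_ (fun W hW => universal_block hS W hW)
  · rwa [Nat.add_sub_cancel] at h3
  · have h1 := Finset.card_compl_add_card S
    have h2 := hS.1
    omega

end Pool.Agent.Lib.MP_2f925d_al
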