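import Pool.Agent.Lib.MP_2f925d_al.HomC

/-!
# The universal sets for large `n`
-/

set_option autoImplicit false

namespace Pool.Agent.Lib.MP_2f925d_al

/-- Two orbits of `t`-sets which both meet every set with `t + 1` points in the sense of
containment are equal for large `n`. -/
theorem same_orbit (t : ℕ) : ∃ M : ℕ, ∀ (Ω : Type*) [Fintype Ω] [DecidableEq Ω],
    M ≤ Fintype.card Ω → ∀ (G : Subgroup (Equiv.Perm Ω)) (T T' : Finset Ω), T.card = t →
    T'.card = t → (∀ W : Finset Ω, W.card = t + 1 → ∃ g ∈ G, T.image g ⊆ W) →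
    (∀ W : Finset Ω, W.card = t + 1 → ∃ g ∈ G, T'.image g ⊆ W) →
    ∃ g ∈ G, T.image g = T' := by
  obtain ⟨M, hM⟩ := ramsey_type t (t + 1) (κ := Prop × Prop)
  refine ⟨M, fun Ω _ _ hΩ G T T' hT hT' hK hK' => ?_⟩
  obtain ⟨Y, hY, c, hc⟩ := hM Ω hΩ
    (fun U => ((∃ g ∈ G, T.image g = U), (∃ g ∈ G, T'.image g = U)))
  obtain ⟨g, hg, hgY⟩ := hK Y hY
  obtain ⟨k, hk, hkY⟩ := hK' Y hY
  have h1 := hc (T.image g) hgY (by rw [Finset.card_image_of_injective _ g.injective, hT])
  have h2 := hc (T'.image k) hkY (by rw [Finset.card_image_of_injective _ k.injective, hT'])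
  rw [← h2] at h1
  have h3 := congrArg Prod.fst h1
  simp only at h3
  have h4 : ∃ g' ∈ G, T.image g' = T'.image k := by
    rw [← h3]
    exact ⟨g, hg, rfl⟩
  obtain ⟨g', hg', h5⟩ := h4
  refine ⟨k⁻¹ * g', G.mul_mem (G.inv_mem hk) hg', ?_⟩
  have h6 : T.image (k⁻¹ * g' : Equiv.Perm Ω) = (T.image g').image (k⁻¹ : Equiv.Perm Ω) := by
    rw [Finset.image_image]
    rfl
  rw [h6, h5, image_inv_image]

variable {Ω : Type*} [Fintype Ω] [DecidableEq Ω]

/-- Merge two blocks with one element. -/
theorem merge_part (P : Finpartition (Finset.univ : Finset Ω)) {x y : Ω} (hxy : x ≠ y)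
    (hx : ({x} : Finset Ω) ∈ P.parts) (hy : ({y} : Finset Ω) ∈ P.parts) :
    ∃ P' : Finpartition (Finset.univ : Finset Ω), P'.parts.card = P.parts.card - 1 ∧
      ({x, y} : Finset Ω) ∈ P'.parts ∧
      ∀ B ∈ P.parts, B ≠ {x} → B ≠ {y} → B ∈ P'.parts := by
  have hdx : ∀ B ∈ P.parts, B ≠ {x} → x ∉ B := by
    intro B hB hne h
    exact Finset.disjoint_left.mp (P.disjoint hB hx hne) h (Finset.mem_singleton_self x)
  have hdy : ∀ B ∈ P.parts, B ≠ {y} → y ∉ B := by
    intro B hB hne h
    exact Finset.disjoint_left.mp (P.disjoint hB hy hne) h (Finset.mem_singleton_self y)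
  have hpar : (P.avoid {x, y}).parts = (P.parts.erase {x}).erase {y} := by
    ext B
    rw [Finpartition.mem_avoid, Finset.mem_erase, Finset.mem_erase]
    constructor
    · rintro ⟨D, hD, hDle, rfl⟩
      have h1 : D ≠ {x} := by
        rintro rfl
        exact hDle (by
          intro z hz
          rw [Finset.mem_singleton] at hz
          rw [hz]
          simp)
      have h2 : D ≠ {y} := by
        rintro rfl
        exact hDle (by
          intro z hz
          rw [Finset.mem_singleton] at hz
          rw [hz]
          simp)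
      have h3 : D \ {x, y} = D := by
        ext z
        simp only [Finset.mem_sdiff, Finset.mem_insert, Finset.mem_singleton]
        constructor
        · exact fun h => h.1
        · intro hz
          refine ⟨hz, ?_⟩
          rintro (rfl | rfl)
          · exact hdx D hD h1 hz
          · exact hdy D hD h2 hz
      rw [h3]
      exact ⟨h2, h1, hD⟩
    · rintro ⟨h2, h1, hB⟩
      refine ⟨B, hB, ?_, ?_⟩
      · intro hle
        obtain ⟨z, hz⟩ := P.nonempty_of_mem_parts hB
        have h3 := hle hz
        rw [Finset.mem_insert, Finset.mem_singleton] at h3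
        rcases h3 with rfl | rfl
        · exact hdx B hB h1 hz
        · exact hdy B hB h2 hz
      · ext z
        simp only [Finset.mem_sdiff, Finset.mem_insert, Finset.mem_singleton]
        constructor
        · exact fun h => h.1
        · intro hz
          refine ⟨hz, ?_⟩
          rintro (rfl | rfl)
          · exact hdx B hB h1 hz
          · exact hdy B hB h2 hz
  have hyx : ({y} : Finset Ω) ≠ {x} := by
    intro h
    exact hxy (Finset.singleton_injective h).symm
  have h2 : 2 ≤ P.parts.card := by
    rw [← Finset.card_pair hyx.symm]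
    refine Finset.card_le_card ?_
    intro B hB
    rw [Finset.mem_insert, Finset.mem_singleton] at hB
    rcases hB with rfl | rfl
    · exact hx
    · exact hy
  let P' : Finpartition (Finset.univ : Finset Ω) :=
    (P.avoid {x, y}).extend (b := ({x, y} : Finset Ω))
      (by intro h; rw [Finset.bot_eq_empty] at h; exact Finset.insert_ne_empty _ _ h)
      Finset.sdiff_disjoint (Finset.sdiff_union_of_subset (Finset.subset_univ _))
  refine ⟨P', ?_, Finset.mem_insert_self _ _, ?_⟩
  · rw [Finpartition.card_extend, hpar, Finset.card_erase_of_mem, Finset.card_erase_of_mem hx]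
    · omega
    · exact Finset.mem_erase.mpr ⟨hyx, hy⟩
  · intro B hB h3 h4
    refine Finset.mem_insert_of_mem ?_
    rw [hpar]
    exact Finset.mem_erase.mpr ⟨h4, Finset.mem_erase.mpr ⟨h3, hB⟩⟩

/-- A partition with many blocks has two blocks with one element. -/
theorem two_singletons (P : Finpartition (Finset.univ : Finset Ω)) {i : ℕ}
    (hP : P.parts.card = Fintype.card Ω - i) (hn : 2 * i + 2 ≤ Fintype.card Ω) :
    ∃ x y : Ω, x ≠ y ∧ ({x} : Finset Ω) ∈ P.parts ∧ ({y} : Finset Ω) ∈ P.parts := by
  classical
  have hsum := P.sum_card_parts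
  rw [Finset.card_univ] at hsum
  have hpos : ∀ B ∈ P.parts, 1 ≤ B.card := fun B hB =>
    Finset.card_pos.mpr (P.nonempty_of_mem_parts hB)
  have h1 : 1 < (P.parts.filter (fun B => B.card = 1)).card := by
    have h2 : ∑ B ∈ P.parts, 2 ≤ ∑ B ∈ P.parts, (B.card + if B.card = 1 then 1 else 0) := by
      refine Finset.sum_le_sum fun B hB => ?_
      have := hpos B hB
      split_ifs <;> omega
    rw [Finset.sum_add_distrib, hsum, ← Finset.sum_filter, Finset.sum_const, Finset.sum_const,
      smul_eq_mul, smul_eq_mul, hP] at h2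
    omega
  obtain ⟨B, hB, B', hB', hne⟩ := Finset.one_lt_card.mp h1
  rw [Finset.mem_filter] at hB hB'
  obtain ⟨x, hx⟩ := Finset.card_eq_one.mp hB.2
  obtain ⟨y, hy⟩ := Finset.card_eq_one.mp hB'.2
  refine ⟨x, y, ?_, hx ▸ hB.1, hy ▸ hB'.1⟩
  rintro rfl
  exact hne (hx.trans hy.symm)

/-- One step up. -/
theorem universal_step {G : Subgroup (Equiv.Perm Ω)} {U V : Finset Ω} {i : ℕ}
    (hV : V.card = i + 1) (hU : U.card = i)
    (hn : 2 * i + 2 ≤ Fintype.card Ω)
    (huniv : IsUniversal G (Fintype.card Ω - (i + 1)) Vᶜ)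
    (horb : ∀ V' : Finset Ω, V' ⊆ V → V'.card = i → ∀ g ∈ G, ∃ h ∈ G,
      U.image h = V'.image g) :
    IsUniversal G (Fintype.card Ω - i) Uᶜ := by
  refine ⟨by rw [Finset.card_compl, hU], ?_⟩
  intro P hP
  obtain ⟨x, y, hxy, hx, hy⟩ := two_singletons P hP hn
  obtain ⟨P', hP', hxyP', hrest⟩ := merge_part P hxy hx hy
  obtain ⟨g, hg, hsec⟩ := huniv.2 P' (by rw [hP', hP]; omega)
  rw [image_compl_eq, isSection_compl] at hsec
  -- exactly one of `x`, `y` is in the image of `V`
  have h1 := hsec _ hxyP'
  obtain ⟨z, hz, hzP, hone⟩ : ∃ z ∈ V.image g, ({z} : Finset Ω) ∈ P.parts ∧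
      ∀ w, ({w} : Finset Ω) ∈ P.parts → (w = x ∨ w = y) → w ∈ V.image g → w = z := by
    by_cases hxV : x ∈ V.image g
    · refine ⟨x, hxV, hx, ?_⟩
      rintro w _ (rfl | rfl) hwV
      · rfl
      · exfalso
        rw [Finset.sdiff_eq_empty_iff_subset.mpr] at h1
        · simp at h1
        · intro u hu
          rw [Finset.mem_insert, Finset.mem_singleton] at hu
          rcases hu with rfl | rfl
          · exact hxV
          · exact hwV
    · by_cases hyV : y ∈ V.image g
      · refine ⟨y, hyV, hy, ?_⟩
        rintro w _ (rfl | rfl) hwV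
        · exact absurd hwV hxV
        · rfl
      · exfalso
        have h2 : ({x, y} : Finset Ω) \ V.image g = {x, y} := by
          ext u
          simp only [Finset.mem_sdiff, Finset.mem_insert, Finset.mem_singleton]
          constructor
          · exact fun h => h.1
          · rintro (rfl | rfl)
            · exact ⟨Or.inl rfl, hxV⟩
            · exact ⟨Or.inr rfl, hyV⟩
        rw [h2, Finset.card_pair hxy] at h1
        omega
  obtain ⟨v, hv, hvz⟩ := Finset.mem_image.mp hz
  obtain ⟨h, hh, hh2⟩ := horb (V.erase v) (Finset.erase_subset _ _)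
    (by rw [Finset.card_erase_of_mem hv, hV]; rfl) g hg
  refine ⟨h, hh, ?_⟩
  rw [image_compl_eq, isSection_compl, hh2]
  have himg : (V.erase v).image g = (V.image g).erase z := by
    rw [← hvz]
    exact Finset.image_erase g.injective V v
  rw [himg]
  intro B hB
  by_cases hBx : B = {x}
  · have h3 : B \ (V.image g).erase z = B := by
      rw [hBx]
      ext u
      simp only [Finset.mem_sdiff, Finset.mem_singleton, Finset.mem_erase]
      constructor
      · exact fun h => h.1
      · rintro rfl
        exact ⟨rfl, fun h4 => h4.1 (hone u hx (Or.inl rfl) h4.2)⟩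
    rw [h3, hBx, Finset.card_singleton]
  · by_cases hBy : B = {y}
    · have h3 : B \ (V.image g).erase z = B := by
        rw [hBy]
        ext u
        simp only [Finset.mem_sdiff, Finset.mem_singleton, Finset.mem_erase]
        constructor
        · exact fun h => h.1
        · rintro rfl
          exact ⟨rfl, fun h4 => h4.1 (hone u hy (Or.inr rfl) h4.2)⟩
      rw [h3, hBy, Finset.card_singleton]
    · have h3 : B \ (V.image g).erase z = B \ V.image g := by
        ext u
        simp only [Finset.mem_sdiff, Finset.mem_erase]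
        constructor
        · rintro ⟨hu, h4⟩
          refine ⟨hu, fun h5 => h4 ⟨?_, h5⟩⟩
          rintro rfl
          -- `z` is in the block `B` and is a block of its own
          have h6 : B = {u} := by
            by_contra hne
            exact Finset.disjoint_left.mp (P.disjoint hB hzP hne) hu
              (Finset.mem_singleton_self u)
          have h7 : u = x ∨ u = y := by
            by_contra hne
            push Not at hne
            have h8 := hsec {u} (hrest _ hzP
              (fun h => hne.1 (Finset.singleton_injective h))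
              (fun h => hne.2 (Finset.singleton_injective h)))
            rw [Finset.sdiff_eq_empty_iff_subset.mpr
              (Finset.singleton_subset_iff.mpr h5)] at h8
            simp at h8
          rcases h7 with rfl | rfl
          · exact hBx h6
          · exact hBy h6
        · rintro ⟨hu, h4⟩
          exact ⟨hu, fun h5 => h4 h5.2⟩
      rw [h3]
      exact hsec B (hrest B hB hBx hBy)

omit [Fintype Ω] in
theorem image_mul_inv (S : Finset Ω) (g k : Equiv.Perm Ω) :
    (S.image g).image (k * g⁻¹ : Equiv.Perm Ω) = S.image k := by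
  rw [Finset.image_image]
  congr 1
  funext u
  simp

theorem IsUniversal.image {G : Subgroup (Equiv.Perm Ω)} {k : ℕ} {S : Finset Ω}
    (hS : IsUniversal G k S) {g : Equiv.Perm Ω} (hg : g ∈ G) : IsUniversal G k (S.image g) := by
  refine ⟨by rw [Finset.card_image_of_injective _ g.injective, hS.1], ?_⟩
  intro P hP
  obtain ⟨k, hk, hk2⟩ := hS.2 P hP
  refine ⟨k * g⁻¹, G.mul_mem hk (G.inv_mem hg), ?_⟩
  rw [image_mul_inv]
  exact hk2

/-- The universal sets for large `n`: they form one orbit, and the larger ones are the sets which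
contain one of them. -/
theorem universal_sets (t : ℕ) : ∃ N : ℕ,
    ∀ (Ω : Type*) [Fintype Ω] [DecidableEq Ω], N ≤ Fintype.card Ω →
    ∀ (G : Subgroup (Equiv.Perm Ω)) (S : Finset Ω), IsUniversal G (Fintype.card Ω - t) S →
      ∀ S' : Finset Ω, Fintype.card Ω - t ≤ S'.card →
        (IsUniversal G S'.card S' ↔ ∃ g ∈ G, S.image g ⊆ S') := by
  choose M hM using fun i => single_orbit t i
  choose M' hM' using fun i => same_orbit i
  refine ⟨(Finset.range (t + 1)).sup M + (Finset.range (t + 1)).sup M' + (2 * t + 2), ?_⟩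
  intro Ω _ _ hΩ G S hS
  have hT : Sᶜ.card = t := by
    have h1 := Finset.card_compl_add_card S
    have h2 := hS.1
    omega
  have hK := fun W hW => universal_block hS (t := t) W hW
  have horb : ∀ i ≤ t, ∀ U V : Finset Ω, U.card = i → V.card = i → Good G Sᶜ U →
      Good G Sᶜ V → ∃ g ∈ G, U.image g = V := by
    intro i hi
    have h1 : M i ≤ (Finset.range (t + 1)).sup M :=
      Finset.le_sup (f := M) (Finset.mem_range.mpr (by omega))
    exact hM i Ω (by omega) G Sᶜ hT hK
  -- downward induction for the complements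
  have hdown : ∀ m, m ≤ t → ∀ U : Finset Ω, U ⊆ Sᶜ → U.card = t - m →
      IsUniversal G (Fintype.card Ω - (t - m)) Uᶜ := by
    intro m
    induction m with
    | zero =>
      intro _ U hU hUc
      have h1 : U = Sᶜ := Finset.eq_of_subset_of_card_le hU (by rw [hT, hUc]; omega)
      rw [h1, compl_compl]
      exact hS
    | succ m ih =>
      intro hm U hU hUc
      obtain ⟨V, hUV, hVS, hVc⟩ := Finset.exists_subsuperset_card_eq hU
        (show U.card ≤ t - m by omega) (by rw [hT]; omega)
      have h1 := ih (by omega) V hVS hVc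
      have h2 : t - m = (t - (m + 1)) + 1 := by omega
      rw [h2] at h1 hVc
      refine universal_step hVc hUc (by omega) h1 ?_
      intro V' hV' hV'c g hg
      refine horb (t - (m + 1)) (by omega) U (V'.image g) hUc
        (by rw [Finset.card_image_of_injective _ g.injective, hV'c]) ?_ ?_
      · exact ⟨1, G.one_mem, by
          rw [Equiv.Perm.coe_one, Finset.image_id]
          exact hU⟩
      · exact ⟨g, hg, Finset.image_subset_image (hV'.trans hVS)⟩
  have hup : ∀ S' : Finset Ω, S ⊆ S' → IsUniversal G S'.card S' := by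
    intro S' hSS'
    have h1 : S'ᶜ ⊆ Sᶜ := Finset.compl_subset_compl.mpr hSS'
    have h2 : S'ᶜ.card ≤ t := by
      rw [← hT]
      exact Finset.card_le_card h1
    have h3 := hdown (t - S'ᶜ.card) (by omega) S'ᶜ h1 (by omega)
    have h4 : Fintype.card Ω - (t - (t - S'ᶜ.card)) = S'.card := by
      have := Finset.card_compl_add_card S'
      omega
    rw [h4, compl_compl] at h3
    exact h3
  intro S' hS'c
  constructor
  · intro hS'
    have hSS' : S.card ≤ S'.card := by rw [hS.1]; exact hS'c
    obtain ⟨S1, hSS1, _, hS1c⟩ := Finset.exists_subsuperset_card_eq (Finset.subset_univ S)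
      hSS' (Finset.card_le_univ S')
    have hS1 := hup S1 hSS1
    have hi1 : S1ᶜ.card = Fintype.card Ω - S'.card := by
      rw [Finset.card_compl, hS1c]
    have hi2 : S'ᶜ.card = Fintype.card Ω - S'.card := by
      rw [Finset.card_compl]
    have hcard : S'.card = Fintype.card Ω - (Fintype.card Ω - S'.card) := by
      have := Finset.card_le_univ S'
      omega
    have hM1 : M' (Fintype.card Ω - S'.card) ≤ (Finset.range (t + 1)).sup M' :=
      Finset.le_sup (f := M') (Finset.mem_range.mpr (by omega))
    rw [hS1c, hcard] at hS1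
    rw [hcard] at hS'
    obtain ⟨g, hg, hg2⟩ := hM' (Fintype.card Ω - S'.card) Ω (by omega) G S1ᶜ S'ᶜ hi1 hi2
      (fun W hW => universal_block hS1 W hW) (fun W hW => universal_block hS' W hW)
    refine ⟨g, hg, ?_⟩
    have h5 : S1.image g = S' := by
      rw [image_eq_compl, hg2, compl_compl]
    rw [← h5]
    exact Finset.image_subset_image hSS1
  · rintro ⟨g, hg, hgS'⟩
    -- move `S'` back by `g`
    have h1 : S ⊆ S'.image (g⁻¹ : Equiv.Perm Ω) := by
      have h2 := Finset.image_subset_image (f := (g⁻¹ : Equiv.Perm Ω)) hgS'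
      rwa [image_inv_image] at h2
    have h2 := (hup _ h1).image hg
    have h3 : (S'.image (g⁻¹ : Equiv.Perm Ω)).image g = S' := by
      have h6 := image_inv_image (g⁻¹) S'
      rwa [inv_inv] at h6
    rw [h3, Finset.card_image_of_injective _ (g⁻¹ : Equiv.Perm Ω).injective] at h2
    exact h2

end Pool.Agent.Lib.MP_2f925d_al
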