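import Pool.Agent.Lib.MP_2f925d_al.Defs

/-!
# Homogeneous groups
-/

set_option autoImplicit false

namespace Pool.Agent.Lib.MP_2f925d_al

variable {Ω : Type*} [Fintype Ω] [DecidableEq Ω]

/-- `G` is `m`-homogeneous: transitive on the subsets of `Ω` with `m` elements. -/
def IsHomogeneous (G : Subgroup (Equiv.Perm Ω)) (m : ℕ) : Prop :=
  ∀ A B : Finset Ω, A.card = m → B.card = m → ∃ g ∈ G, A.image g = B

/-- `G` fixes a point `c` and is `m`-homogeneous on the set of the other points. -/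
def FixesPointHomogeneous (G : Subgroup (Equiv.Perm Ω)) (m : ℕ) : Prop :=
  ∃ c : Ω, (∀ g ∈ G, g c = c) ∧
    ∀ A B : Finset Ω, A.card = m → B.card = m → c ∉ A → c ∉ B → ∃ g ∈ G, A.image g = B

end Pool.Agent.Lib.MP_2f925d_al
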