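import Pool.Agent.Lib.MP_2f925d_al.HS

/-!
# Involutions of a Moore graph of degree 57 fix exactly 56 points
-/

set_option autoImplicit false

namespace Pool.Agent.Lib.MP_2f925d_al

variable {Ω : Type*} [Fintype Ω] [DecidableEq Ω]

open Matrix

theorem shift_idem (P : Matrix Ω Ω ℝ) (hP : P * P = P) (g : Equiv.Perm Ω)
    (hg : ∀ x, g (g x) = x) (hinv : ∀ x y, P (g x) (g y) = P x y) :
    ∃ m : ℕ, (P.trace + ∑ x, P (g x) x) / 2 = m := by
  have e1 : P.submatrix g id * P = P.submatrix g id := by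
    ext x y
    have h1 : (P.submatrix g id) x y = (P * P) (g x) y := by rw [hP]; rfl
    rw [h1, Matrix.mul_apply, Matrix.mul_apply]
    rfl
  have e2 : P * P.submatrix g id = P.submatrix g id := by
    ext x y
    have h1 : (P.submatrix g id) x y = (P * P) (g x) y := by rw [hP]; rfl
    rw [h1, Matrix.mul_apply, Matrix.mul_apply, ← Equiv.sum_comp g (fun z => P (g x) z * P z y)]
    refine Finset.sum_congr rfl fun z _ => ?_
    simp only [hinv]
    rfl
  have e3 : P.submatrix g id * P.submatrix g id = P := by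
    ext x y
    have h1 : P x y = (P * P) x y := by rw [hP]
    rw [h1, Matrix.mul_apply, Matrix.mul_apply, ← Equiv.sum_comp g (fun z => P x z * P z y)]
    refine Finset.sum_congr rfl fun z _ => ?_
    have h2 : P (g x) z = P x (g z) := by
      rw [← hinv x (g z), hg]
    simp only [Matrix.submatrix_apply, id, h2]
  have hid : ((1 / 2 : ℝ) • (P + P.submatrix g id)) * ((1 / 2 : ℝ) • (P + P.submatrix g id)) =
      (1 / 2 : ℝ) • (P + P.submatrix g id) := by
    simp only [smul_mul_assoc, mul_smul_comm, add_mul, mul_add, hP, e1, e2, e3]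
    ext x y
    simp only [Matrix.add_apply, Matrix.smul_apply, smul_eq_mul]
    ring
  obtain ⟨m, hm⟩ := trace_idem _ hid
  refine ⟨m, ?_⟩
  rw [← hm, Matrix.trace_smul, Matrix.trace_add, smul_eq_mul]
  have : (P.submatrix g id).trace = ∑ x, P (g x) x := rfl
  rw [this]
  ring

omit [Fintype Ω] in
theorem comb_apply (Δ : SimpleGraph Ω) (α β γ : ℝ) (x y : Ω) :
    comb Δ α β γ x y = α * (if x = y then 1 else 0) + β * adj Δ x y + γ := by
  simp [comb, allOne, Matrix.one_apply]

theorem fix_mod (Δ : SimpleGraph Ω) (h : IsMoore Δ 57) (g : Equiv.Perm Ω)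
    (hg : ∀ x, g (g x) = x) (haut : ∀ a b, Δ.Adj (g a) (g b) ↔ Δ.Adj a b)
    (hna : ∀ x, ¬ Δ.Adj (g x) x) :
    ∃ z : ℤ, 8 * ({x | g x = x}.ncard : ℤ) = 50 + 15 * z := by
  classical
  have hn : (Fintype.card Ω : ℝ) = 3250 := by
    rw [h.1]; norm_num
  have hid := comb_idem Δ 57 h (8 / 15) (1 / 15) (-1 / 975) (by norm_num) (by norm_num)
    (by norm_num)
  obtain ⟨m, hm⟩ := trace_idem _ hid
  obtain ⟨m', hm'⟩ := shift_idem _ hid g hg (by
    intro x y
    simp only [comb_apply, adj_apply, haut, g.injective.eq_iff])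
  rw [hm] at hm'
  have hs : ∑ x, comb Δ (8 / 15) (1 / 15) (-1 / 975) (g x) x =
      8 / 15 * ({x | g x = x}.ncard : ℝ) - 50 / 15 := by
    have h1 : ∀ x, comb Δ (8 / 15) (1 / 15) (-1 / 975) (g x) x =
        8 / 15 * (if g x = x then 1 else 0) + (-1 / 975) := by
      intro x
      rw [comb_apply, adj_apply, if_neg (hna x)]
      ring
    simp only [h1]
    rw [Finset.sum_add_distrib, ← Finset.mul_sum, Finset.sum_boole, Finset.sum_const,
      Finset.card_univ, nsmul_eq_mul, hn, Set.ncard_eq_toFinset_card']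
    have h2 : ({x | g x = x} : Set Ω).toFinset = Finset.univ.filter (fun x => g x = x) := by
      ext x
      simp
    rw [h2]
    ring
  rw [hs] at hm'
  refine ⟨2 * m' - m, ?_⟩
  have h5 : (8 : ℝ) * ({x | g x = x}.ncard : ℝ) = 50 + 15 * (2 * m' - m) := by
    linarith
  exact_mod_cast h5

section

variable {Δ : SimpleGraph Ω} {d : ℕ} (h : IsMoore Δ d) {g : Equiv.Perm Ω}
  (hg : ∀ x, g (g x) = x) (haut : ∀ a b, Δ.Adj (g a) (g b) ↔ Δ.Adj a b)

omit [DecidableEq Ω] in
include h in
theorem moore_uniq {x y z w : Ω} (hxy : x ≠ y) (h1 : Δ.Adj x z) (h2 : Δ.Adj y z)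
    (h5 : Δ.Adj x w) (h6 : Δ.Adj y w) : z = w := by
  have hna : ¬ Δ.Adj x y := fun hh => h.2.2.1 x y hh z ⟨h1, h2⟩
  exact (h.2.2.2 x y hxy hna).unique ⟨h1, h2⟩ ⟨h5, h6⟩

include h hg haut in
/-- If some point is adjacent to its image, then the fixed points correspond to the neighbours of
this point different from its image. -/
theorem fix_adj {x : Ω} (hx : Δ.Adj x (g x)) : {w | g w = w}.ncard = d - 1 := by
  classical
  have h3 := h.2.2.1
  have h4 := h.2.2.2
  have hwx : ∀ w, g w = w → x ≠ w ∧ ¬ Δ.Adj x w := by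
    intro w hw
    refine ⟨?_, ?_⟩
    · rintro rfl
      rw [hw] at hx
      exact Δ.irrefl hx
    · intro hh
      have h7 := (haut x w).mpr hh
      rw [hw] at h7
      exact h3 x (g x) hx w ⟨hh, h7⟩
  have hcard : ({u | Δ.Adj x u} \ {g x}).ncard = d - 1 := by
    rw [Set.ncard_sdiff_singleton_of_mem (by exact hx), h.2.1 x]
  rw [← hcard]
  have hex : ∀ w, ∃ u, g w = w → (Δ.Adj x u ∧ Δ.Adj w u) := by
    intro w
    by_cases hw : g w = w
    · obtain ⟨u, hu, _⟩ := h4 x w (hwx w hw).1 (hwx w hw).2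
      exact ⟨u, fun _ => hu⟩
    · exact ⟨w, fun hh => absurd hh hw⟩
  choose f hf using hex
  refine Set.ncard_congr (fun w _ => f w) ?_ ?_ ?_
  · intro w hw
    have hw' : g w = w := hw
    refine ⟨(hf w hw').1, ?_⟩
    intro hh
    have hh' : f w = g x := hh
    have h7 := (hf w hw').2
    rw [hh', ← hw', haut] at h7
    exact (hwx w hw').2 h7.symm
  · intro w v hw hv hwv
    have hw' : g w = w := hw
    have hv' : g v = v := hv
    have hwv' : f w = f v := hwv
    -- `w` and `v` are common neighbours of `f w` and `g (f w)`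
    have h7 := (hf w hw').2
    have h8 := (hf v hv').2
    rw [← hwv'] at h8
    have h9 : Δ.Adj (g (f w)) w := by
      have := (haut w (f w)).mpr h7
      rw [hw'] at this
      exact this.symm
    have h10 : Δ.Adj (g (f w)) v := by
      have := (haut v (f w)).mpr h8
      rw [hv'] at this
      exact this.symm
    have hne : f w ≠ g (f w) := by
      intro hh
      exact (hwx (f w) hh.symm).2 (hf w hw').1
    exact moore_uniq h hne h7.symm h9 h8.symm h10
  · intro u hu
    have hu1 : Δ.Adj x u := hu.1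
    have hu2 : u ≠ g x := hu.2
    have hxu := hu1.ne
    have hgu : Δ.Adj (g x) (g u) := (haut x u).mpr hu1
    have hne : u ≠ g u := by
      intro hh
      exact (hwx u hh.symm).2 hu1
    have hxgu : x ≠ g u := by
      intro hh
      apply hu2
      rw [hh, hg]
    have hna : ¬ Δ.Adj u (g u) := by
      intro hh
      exact hu2 (moore_uniq h hxgu hu1 hh.symm hx hgu.symm)
    obtain ⟨v, ⟨hv1, hv2⟩, hv3⟩ := h4 u (g u) hne hna
    have hgv : g v = v := by
      apply hv3
      refine ⟨?_, (haut u v).mpr hv1⟩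
      have := (haut (g u) v).mpr hv2
      rwa [hg] at this
    refine ⟨v, hgv, ?_⟩
    exact moore_uniq h (hwx v hgv).1 (hf v hgv).1 (hf v hgv).2 hu1 hv1.symm

omit [DecidableEq Ω] in
include h hg haut in
theorem exists_fix_nbr (hna : ∀ x, ¬ Δ.Adj (g x) x) {x : Ω} (hx : g x ≠ x) :
    ∃ w, g w = w ∧ Δ.Adj x w := by
  obtain ⟨w, ⟨h1, h2⟩, h5⟩ := h.2.2.2 x (g x) hx.symm (fun hh => hna x hh.symm)
  refine ⟨w, h5 _ ⟨?_, (haut x w).mpr h1⟩, h1⟩
  have := (haut (g x) w).mpr h2
  rwa [hg] at this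

omit [DecidableEq Ω] in
include h haut in
theorem fix_nbr_uniq {x : Ω} (hx : g x ≠ x) {w v : Ω} (hw : g w = w) (hv : g v = v)
    (h1 : Δ.Adj x w) (h2 : Δ.Adj x v) : w = v := by
  have h5 := (haut x w).mpr h1
  have h6 := (haut x v).mpr h2
  rw [hw] at h5
  rw [hv] at h6
  exact moore_uniq h hx.symm h1 h5 h2 h6

include h hg haut in
/-- A fixed point `w` with a non-fixed neighbour `x` has exactly `f - d` fixed neighbours. -/
theorem fix_card_nbr (hna : ∀ x, ¬ Δ.Adj (g x) x) {w x : Ω} (hw : g w = w) (hx : g x ≠ x)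
    (hwx : Δ.Adj w x) :
    {v | g v = v}.ncard = d + {v | g v = v ∧ Δ.Adj w v}.ncard := by
  classical
  have h3 := h.2.2.1
  have h4 := h.2.2.2
  -- the fixed points different from `w` and not adjacent to `w`
  have hrest : {v | g v = v ∧ v ≠ w ∧ ¬ Δ.Adj w v}.ncard = d - 1 := by
    have hcard : ({u | Δ.Adj x u} \ {w}).ncard = d - 1 := by
      rw [Set.ncard_sdiff_singleton_of_mem (by exact hwx.symm), h.2.1 x]
    rw [← hcard]
    have hvx : ∀ v, g v = v ∧ v ≠ w ∧ ¬ Δ.Adj w v → x ≠ v ∧ ¬ Δ.Adj x v := by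
      rintro v ⟨hv, hvw, _⟩
      refine ⟨?_, ?_⟩
      · rintro rfl
        exact hx hv
      · intro hh
        exact hvw (fix_nbr_uniq h haut hx hv hw hh hwx.symm)
    have hex : ∀ v, ∃ u, (g v = v ∧ v ≠ w ∧ ¬ Δ.Adj w v) → (Δ.Adj x u ∧ Δ.Adj v u) := by
      intro v
      by_cases hv : g v = v ∧ v ≠ w ∧ ¬ Δ.Adj w v
      · obtain ⟨u, hu, _⟩ := h4 x v (hvx v hv).1 (hvx v hv).2
        exact ⟨u, fun _ => hu⟩
      · exact ⟨v, fun hh => absurd hh hv⟩
    choose f hf using hex
    have hnf : ∀ u, Δ.Adj x u → u ≠ w → g u ≠ u := by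
      intro u hu huw hh
      exact huw (fix_nbr_uniq h haut hx hh hw hu hwx.symm)
    refine Set.ncard_congr (fun v _ => f v) ?_ ?_ ?_
    · intro v hv
      refine ⟨(hf v hv).1, ?_⟩
      intro hh
      have hh' : f v = w := hh
      have h7 := (hf v hv).2
      rw [hh'] at h7
      exact hv.2.2 h7.symm
    · intro v v' hv hv' hvv
      have hvv' : f v = f v' := hvv
      have h7 := (hf v hv).2
      have h8 := (hf v' hv').2
      rw [← hvv'] at h8
      have hfw : f v ≠ w := by
        intro hh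
        rw [hh] at h7
        exact hv.2.2 h7.symm
      exact fix_nbr_uniq h haut (hnf _ (hf v hv).1 hfw) hv.1 hv'.1 h7.symm h8.symm
    · intro u hu
      have hu1 : Δ.Adj x u := hu.1
      have hu2 : u ≠ w := hu.2
      obtain ⟨v, hv, huv⟩ := exists_fix_nbr h hg haut hna (hnf u hu1 hu2)
      have hvP : g v = v ∧ v ≠ w ∧ ¬ Δ.Adj w v := by
        refine ⟨hv, ?_, ?_⟩
        · rintro rfl
          exact h3 x u hu1 v ⟨hwx.symm, huv⟩
        · intro hh
          have hxv : x ≠ v := by
            rintro rfl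
            exact hx hv
          exact hu2 (moore_uniq h hxv hu1 huv.symm hwx.symm hh.symm)
      refine ⟨v, hvP, ?_⟩
      exact moore_uniq h (hvx v hvP).1 (hf v hvP).1 (hf v hvP).2 hu1 huv.symm
  have hd : 1 ≤ d := by
    rw [← h.2.1 w]
    exact (Set.ncard_pos (Set.toFinite _)).mpr ⟨x, hwx⟩
  have hsplit : ({v | g v = v} : Set Ω) =
      insert w ({v | g v = v ∧ v ≠ w ∧ ¬ Δ.Adj w v} ∪ {v | g v = v ∧ Δ.Adj w v}) := by
    ext v
    simp only [Set.mem_ofPred_eq, Set.mem_insert_iff, Set.mem_union]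
    constructor
    · intro hv
      by_cases h7 : v = w
      · exact Or.inl h7
      · by_cases h8 : Δ.Adj w v
        · exact Or.inr (Or.inr ⟨hv, h8⟩)
        · exact Or.inr (Or.inl ⟨hv, h7, h8⟩)
    · rintro (h7 | h7 | h7)
      · rw [h7]; exact hw
      · exact h7.1
      · exact h7.1
  rw [hsplit, Set.ncard_insert_of_notMem, Set.ncard_union_eq, hrest]
  · omega
  · rw [Set.disjoint_left]
    rintro v ⟨_, _, h7⟩ ⟨_, h8⟩
    exact h7 h8
  · simp

end

theorem fix_57 (Δ : SimpleGraph Ω) (h : IsMoore Δ 57) (g : Equiv.Perm Ω) (hg1 : g ≠ 1)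
    (hg : ∀ x, g (g x) = x) (haut : ∀ a b, Δ.Adj (g a) (g b) ↔ Δ.Adj a b) :
    {x | g x = x}.ncard = 56 := by
  classical
  by_cases hna : ∀ x, ¬ Δ.Adj (g x) x
  · exfalso
    obtain ⟨z, hz⟩ := fix_mod Δ h g hg haut hna
    obtain ⟨x0, hx0⟩ : ∃ x, g x ≠ x := by
      by_contra hh
      push Not at hh
      exact hg1 (Equiv.ext hh)
    obtain ⟨w0, hw0, hxw0⟩ := exists_fix_nbr h hg haut hna hx0
    set f := {x | g x = x}.ncard with hf
    have hnb : ∀ w, g w = w → (∃ x, g x ≠ x ∧ Δ.Adj w x) →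
        {v | g v ≠ v ∧ Δ.Adj w v}.ncard = 114 - f := by
      rintro w hw ⟨x, hx, hwx⟩
      have h1 := fix_card_nbr h hg haut hna hw hx hwx
      have h2 := h.2.1 w
      have h5 : ({v | Δ.Adj w v} : Set Ω) = {v | g v = v ∧ Δ.Adj w v} ∪ {v | g v ≠ v ∧ Δ.Adj w v} := by
        ext v
        simp only [Set.mem_ofPred_eq, Set.mem_union]
        tauto
      rw [h5, Set.ncard_union_eq] at h2
      · omega
      · rw [Set.disjoint_left]
        rintro v ⟨h7, _⟩ ⟨h8, _⟩
        exact h8 h7
    have hf1 : 57 ≤ f := by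
      have h1 := fix_card_nbr h hg haut hna hw0 hx0 hxw0.symm
      omega
    have hf2 : f ≤ 113 := by
      have h1 := hnb w0 hw0 ⟨x0, hx0, hxw0.symm⟩
      have h2 : 0 < {v | g v ≠ v ∧ Δ.Adj w0 v}.ncard :=
        (Set.ncard_pos (Set.toFinite _)).mpr ⟨x0, hx0, hxw0.symm⟩
      omega
    -- count the non-fixed points by their fixed neighbour
    let Q : Finset Ω := Finset.univ.filter (fun w => g w = w ∧ ∃ x, g x ≠ x ∧ Δ.Adj w x)
    have hQ : Q.card ≤ f := by
      rw [hf, Set.ncard_eq_toFinset_card']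
      refine Finset.card_le_card fun w hw => ?_
      simp only [Set.toFinset_ofPred, Finset.mem_filter, Finset.mem_univ, true_and]
      exact (Finset.mem_filter.mp hw).2.1
    have hex : ∀ x, ∃ w, g x ≠ x → (g w = w ∧ Δ.Adj x w) := by
      intro x
      by_cases hx : g x ≠ x
      · obtain ⟨w, hw⟩ := exists_fix_nbr h hg haut hna hx
        exact ⟨w, fun _ => hw⟩
      · exact ⟨x, fun hh => absurd hh hx⟩
    choose u hu using hex
    have hcount : (Finset.univ.filter (fun x => g x ≠ x)).card =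
        ∑ w ∈ Q, ((Finset.univ.filter (fun x => g x ≠ x)).filter (fun x => u x = w)).card := by
      refine Finset.card_eq_sum_card_fiberwise (f := u) ?_
      intro x hx
      have hx' : g x ≠ x := by simpa using hx
      have h1 := hu x hx'
      exact Finset.mem_coe.mpr (Finset.mem_filter.mpr
        ⟨Finset.mem_univ _, h1.1, x, hx', h1.2.symm⟩)
    have hfib : ∀ w ∈ Q,
        ((Finset.univ.filter (fun x => g x ≠ x)).filter (fun x => u x = w)).card = 114 - f := by
      intro w hw
      have hw' := (Finset.mem_filter.mp hw).2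
      rw [← hnb w hw'.1 hw'.2, Set.ncard_eq_toFinset_card']
      congr 1
      ext x
      simp only [Finset.mem_filter, Finset.mem_univ, true_and, Set.mem_toFinset, Set.mem_ofPred_eq]
      constructor
      · rintro ⟨hx, rfl⟩
        exact ⟨hx, (hu x hx).2.symm⟩
      · rintro ⟨hx, hwx⟩
        exact ⟨hx, fix_nbr_uniq h haut hx (hu x hx).1 hw'.1 (hu x hx).2 hwx.symm⟩
    rw [Finset.sum_congr rfl hfib, Finset.sum_const, smul_eq_mul] at hcount
    have htot : f + (Finset.univ.filter (fun x => g x ≠ x)).card = 3250 := by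
      have h1 : (Finset.univ.filter (fun x => g x = x)).card +
          (Finset.univ.filter (fun x => g x ≠ x)).card = Fintype.card Ω := by
        rw [← Finset.card_univ]
        exact Finset.card_filter_add_card_filter_not _
      rw [h.1] at h1
      rw [hf, Set.ncard_eq_toFinset_card']
      simp only [Set.toFinset_ofPred]
      omega
    rw [hcount] at htot
    have hcases : f = 70 ∨ f = 85 ∨ f = 100 := by omega
    rcases hcases with h7 | h7 | h7 <;> rw [h7] at htot hQ <;> omega
  · push Not at hna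
    obtain ⟨x, hx⟩ := hna
    exact fix_adj h hg haut hx.symm

theorem sign_57 (Δ : SimpleGraph Ω) (h : IsMoore Δ 57) (g : Equiv.Perm Ω)
    (hg : orderOf g = 2) (haut : ∀ a b, Δ.Adj (g a) (g b) ↔ Δ.Adj a b) :
    Equiv.Perm.sign g = -1 := by
  classical
  have hg1 : g ≠ 1 := by
    rintro rfl
    simp at hg
  have hg2 : ∀ x, g (g x) = x := by
    intro x
    have h1 := pow_orderOf_eq_one g
    rw [hg, pow_two] at h1
    have h2 := congrArg (fun k : Equiv.Perm Ω => k x) h1
    exact h2
  have hfix := fix_57 Δ h g hg1 hg2 haut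
  obtain ⟨n, hn⟩ := Equiv.Perm.cycleType_prime_order (σ := g) (by rw [hg]; exact Nat.prime_two)
  have hsum := Equiv.Perm.sum_cycleType g
  have hsupp : g.support.card = 3194 := by
    have h1 : g.support = Finset.univ.filter (fun x => g x ≠ x) := by
      ext x
      simp
    have h2 : (Finset.univ.filter (fun x => g x = x)).card +
        (Finset.univ.filter (fun x => g x ≠ x)).card = Fintype.card Ω := by
      rw [← Finset.card_univ]
      exact Finset.card_filter_add_card_filter_not _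
    rw [h.1] at h2
    rw [Set.ncard_eq_toFinset_card'] at hfix
    simp only [Set.toFinset_ofPred] at hfix
    rw [h1]
    omega
  rw [hsupp, hn, hg, Multiset.sum_replicate, smul_eq_mul] at hsum
  rw [Equiv.Perm.sign_of_cycleType, hn, hg, Multiset.sum_replicate, Multiset.card_replicate,
    smul_eq_mul]
  have h5 : n + 1 = 1597 := by omega
  rw [h5]
  rw [Odd.neg_one_pow]
  decide

end Pool.Agent.Lib.MP_2f925d_al
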