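import Pool.Agent.Lib.MP_2f925d_al.Graph
import Pool.Agent.Lib.MP_2f925d_al.Invol
import Pool.Agent.Lib.MP_2f925d_al.Partition

/-!
# Groups with the weak `(n - 2)`-universal transversal property
-/

set_option autoImplicit false

namespace Pool.Agent.Lib.MP_2f925d_al

variable {Ω : Type*} [Fintype Ω] [DecidableEq Ω]

/-- The action of a permutation group on unordered pairs. -/
@[instance_reducible]
def symAct (G : Subgroup (Equiv.Perm Ω)) : MulAction G (Sym2 Ω) where
  smul g e := Sym2.map (g : Equiv.Perm Ω) e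
  one_smul e := by
    change Sym2.map ((1 : Equiv.Perm Ω) : Ω → Ω) e = e
    rw [Equiv.Perm.coe_one, Sym2.map_id]
    rfl
  mul_smul g h e := by
    change Sym2.map (((g * h : G) : Equiv.Perm Ω) : Ω → Ω) e = Sym2.map (g : Equiv.Perm Ω) (Sym2.map (h : Equiv.Perm Ω) e)
    rw [Sym2.map_map]
    rfl

/-- Half of the group elements are even. -/
theorem even_invol (G : Subgroup (Equiv.Perm Ω)) (h4 : 4 ∣ Nat.card G) :
    ∃ g ∈ G, orderOf g = 2 ∧ Equiv.Perm.sign g = 1 := by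
  let f : G →* ℤˣ := Equiv.Perm.sign.comp G.subtype
  have h1 : Nat.card f.ker * f.ker.index = Nat.card G := Subgroup.card_mul_index _
  rw [Subgroup.index_ker] at h1
  have h2 : Nat.card f.range ∣ 2 := by
    have h3 := Subgroup.card_subgroup_dvd_card f.range
    rw [Nat.card_eq_fintype_card (α := ℤˣ), Fintype.card_units_int] at h3
    exact h3
  have h5 : 2 ∣ Nat.card f.ker := by
    rcases (Nat.dvd_prime Nat.prime_two).mp h2 with h6 | h6 <;> rw [h6] at h1 <;> omega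
  have : Fact (Nat.Prime 2) := ⟨Nat.prime_two⟩
  obtain ⟨x, hx⟩ := exists_prime_orderOf_dvd_card' 2 h5
  refine ⟨((x : G) : Equiv.Perm Ω), (x : G).2, ?_, ?_⟩
  · rw [Subgroup.orderOf_coe, Subgroup.orderOf_coe, hx]
  · exact MonoidHom.mem_ker.mp x.2

theorem not_57 (Δ : SimpleGraph Ω) (h : IsMoore Δ 57) (G : Subgroup (Equiv.Perm Ω))
    (haut : ∀ g ∈ G, ∀ a b, Δ.Adj (g a) (g b) ↔ Δ.Adj a b)
    (htr : ∀ x y z w, x ≠ y → ¬ Δ.Adj x y → z ≠ w → ¬ Δ.Adj z w →
      ∃ g ∈ G, (g x = z ∧ g y = w) ∨ (g x = w ∧ g y = z)) : False := by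
  classical
  have hdeg : ∀ v, Δᶜ.degree v = 3192 := by
    intro v
    rw [SimpleGraph.degree_compl, h.1]
    have h1 := h.2.1 v
    rw [Set.ncard_eq_toFinset_card'] at h1
    have h2 : Δ.degree v = 57 := by
      rw [← h1, ← SimpleGraph.card_neighborFinset_eq_degree]
      rfl
    rw [h2]
    norm_num
  have hE : Δᶜ.edgeFinset.card = 5187000 := by
    have h1 := Δᶜ.sum_degrees_eq_twice_card_edges
    rw [Finset.sum_congr rfl (fun v _ => hdeg v), Finset.sum_const, Finset.card_univ, h.1,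
      smul_eq_mul] at h1
    omega
  have hne : Δᶜ.edgeFinset.Nonempty := by
    rw [← Finset.card_pos, hE]
    norm_num
  obtain ⟨e0, he0⟩ := hne
  rw [SimpleGraph.mem_edgeFinset] at he0
  induction e0 with
  | _ x0 y0 =>
  rw [SimpleGraph.mem_edgeSet, SimpleGraph.compl_adj] at he0
  let _ := symAct G
  have horb : MulAction.orbit G (s(x0, y0) : Sym2 Ω) = Δᶜ.edgeSet := by
    ext e
    induction e with
    | _ z w =>
    rw [SimpleGraph.mem_edgeSet, SimpleGraph.compl_adj, MulAction.mem_orbit_iff]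
    constructor
    · rintro ⟨g, hg⟩
      have hg' : s((g : Equiv.Perm Ω) x0, (g : Equiv.Perm Ω) y0) = s(z, w) := hg
      have h1 : (g : Equiv.Perm Ω) x0 ≠ (g : Equiv.Perm Ω) y0 :=
        fun hh => he0.1 ((g : Equiv.Perm Ω).injective hh)
      have h2 : ¬ Δ.Adj ((g : Equiv.Perm Ω) x0) ((g : Equiv.Perm Ω) y0) :=
        fun hh => he0.2 ((haut g g.2 x0 y0).mp hh)
      rcases Sym2.eq_iff.mp hg' with ⟨h5, h6⟩ | ⟨h5, h6⟩
      · rw [h5, h6] at h1 h2
        exact ⟨h1, h2⟩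
      · rw [h5, h6] at h1 h2
        exact ⟨h1.symm, fun hh => h2 hh.symm⟩
    · rintro ⟨h1, h2⟩
      obtain ⟨g, hg, hg2⟩ := htr x0 y0 z w he0.1 he0.2 h1 h2
      refine ⟨⟨g, hg⟩, ?_⟩
      change s(g x0, g y0) = s(z, w)
      exact Sym2.eq_iff.mpr hg2
  have hidx := MulAction.index_stabilizer G (s(x0, y0) : Sym2 Ω)
  rw [horb] at hidx
  have hcard : Δᶜ.edgeSet.ncard = 5187000 := by
    rw [← hE, ← SimpleGraph.coe_edgeFinset, Set.ncard_coe_finset]
  rw [hcard] at hidx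
  have hdvd := Subgroup.index_dvd_card (MulAction.stabilizer G (s(x0, y0) : Sym2 Ω))
  rw [hidx] at hdvd
  obtain ⟨g, hg, hg2, hg3⟩ := even_invol G (Dvd.dvd.trans (by norm_num) hdvd)
  have h5 := sign_57 Δ h g hg2 (haut g hg)
  rw [hg3] at h5
  exact absurd h5 (by decide)

omit [Fintype Ω] in
theorem pair_eq_iff {x y z w : Ω} : ({x, y} : Finset Ω) = {z, w} ↔
    (x = z ∧ y = w) ∨ (x = w ∧ y = z) := by
  rw [← Finset.coe_inj]
  push_cast
  exact Set.pair_eq_pair_iff

/-- The graph of a set `T` with two elements: `x` and `y` are adjacent if `{x, y}` is not an image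
of `T` under `G`. -/
def orbGraph (G : Subgroup (Equiv.Perm Ω)) (T : Finset Ω) : SimpleGraph Ω where
  Adj x y := x ≠ y ∧ ¬ ∃ g ∈ G, T.image g = {x, y}
  symm := ⟨by
    rintro x y ⟨h1, h2⟩
    refine ⟨h1.symm, ?_⟩
    rintro ⟨g, hg, hg2⟩
    exact h2 ⟨g, hg, by rw [hg2]; exact Finset.pair_comm _ _⟩⟩
  loopless := ⟨fun x h => h.1 rfl⟩

omit [Fintype Ω] in
theorem orbGraph_not (G : Subgroup (Equiv.Perm Ω)) (T : Finset Ω) {x y : Ω} (hxy : x ≠ y) :
    ¬ (orbGraph G T).Adj x y ↔ ∃ g ∈ G, T.image g = {x, y} := by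
  constructor
  · intro h
    by_contra hh
    exact h ⟨hxy, hh⟩
  · rintro h ⟨_, h2⟩
    exact h2 h

omit [Fintype Ω] in
theorem orbGraph_aut (G : Subgroup (Equiv.Perm Ω)) (T : Finset Ω) (g : Equiv.Perm Ω)
    (hg : g ∈ G) (x y : Ω) : (orbGraph G T).Adj (g x) (g y) ↔ (orbGraph G T).Adj x y := by
  have key : ∀ g ∈ G, ∀ x y, (∃ k ∈ G, T.image k = {x, y}) → ∃ k ∈ G, T.image k = {g x, g y} := by
    rintro g hg x y ⟨k, hk, hk2⟩
    refine ⟨g * k, G.mul_mem hg hk, ?_⟩
    have h1 : T.image (g * k : Equiv.Perm Ω) = (T.image k).image g := by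
      rw [Finset.image_image]
      rfl
    rw [h1, hk2, Finset.image_insert, Finset.image_singleton]
  constructor
  · rintro ⟨h1, h2⟩
    refine ⟨fun hh => h1 (by rw [hh]), fun hh => h2 (key g hg x y hh)⟩
  · rintro ⟨h1, h2⟩
    refine ⟨fun hh => h1 (g.injective hh), fun hh => h2 ?_⟩
    have := key g⁻¹ (G.inv_mem hg) _ _ hh
    simpa using this

/-- A set `Tᶜ` is universal if and only if the graph of `T` has no triangle and no `4`-cycle. -/
theorem universal_iff (hn : 4 ≤ Fintype.card Ω) (G : Subgroup (Equiv.Perm Ω)) (S : Finset Ω)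
    (hS : Sᶜ.card = 2) :
    IsUniversal G (Fintype.card Ω - 2) S ↔
      (∀ x y, (orbGraph G Sᶜ).Adj x y →
        ∀ z, ¬ ((orbGraph G Sᶜ).Adj x z ∧ (orbGraph G Sᶜ).Adj y z)) ∧
      (∀ x y, x ≠ y → ∀ z w, (orbGraph G Sᶜ).Adj x z → (orbGraph G Sᶜ).Adj y z →
        (orbGraph G Sᶜ).Adj x w → (orbGraph G Sᶜ).Adj y w → z = w) := by
  have hScard : S.card = Fintype.card Ω - 2 := by
    have := Finset.card_compl_add_card S
    omega
  constructor
  · rintro ⟨_, hU⟩
    refine ⟨?_, ?_⟩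
    · rintro x y hxy z ⟨hxz, hyz⟩
      obtain ⟨P, hP, hPT⟩ := tri_part x y z hxy.1 hxz.1 hyz.1
      obtain ⟨g, hg, hsec⟩ := hU P hP
      rw [image_eq_compl] at hsec
      rcases hPT _ (by rw [Finset.card_image_of_injective _ g.injective, hS]) hsec with h | h | h
      · exact hxy.2 ⟨g, hg, h⟩
      · exact hxz.2 ⟨g, hg, h⟩
      · exact hyz.2 ⟨g, hg, h⟩
    · intro x y hxy z w hxz hyz hxw hyw
      by_contra hzw
      obtain ⟨P, hP, hPT⟩ := sq_part x y z w hxy hxz.1 hxw.1 hyz.1 hyw.1 hzw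
      obtain ⟨g, hg, hsec⟩ := hU P hP
      rw [image_eq_compl] at hsec
      rcases hPT _ (by rw [Finset.card_image_of_injective _ g.injective, hS]) hsec with
        h | h | h | h
      · exact hxz.2 ⟨g, hg, h⟩
      · exact hxw.2 ⟨g, hg, h⟩
      · exact hyz.2 ⟨g, hg, h⟩
      · exact hyw.2 ⟨g, hg, h⟩
  · rintro ⟨h3, h4⟩
    refine ⟨hScard, ?_⟩
    intro P hP
    rcases exists_section P hn hP with ⟨a, b, c, hab, hac, hbc, hsec⟩ |
      ⟨a, b, c, d, hab, hac, had, hbc, hbd, hcd, hsec⟩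
    · by_contra hh
      push Not at hh
      have key : ∀ x y, x ≠ y → (∀ T : Finset Ω, T = {x, y} → IsSection P Tᶜ) →
          (orbGraph G Sᶜ).Adj x y := by
        rintro x y hxy hT
        refine ⟨hxy, ?_⟩
        rintro ⟨g, hg, hg2⟩
        apply hh g hg
        rw [image_eq_compl]
        exact hT _ hg2
      exact h3 a b (key a b hab fun T hT => hsec T (Or.inl hT)) c
        ⟨key a c hac fun T hT => hsec T (Or.inr (Or.inl hT)),
          key b c hbc fun T hT => hsec T (Or.inr (Or.inr hT))⟩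
    · by_contra hh
      push Not at hh
      have key : ∀ x y, x ≠ y → (∀ T : Finset Ω, T = {x, y} → IsSection P Tᶜ) →
          (orbGraph G Sᶜ).Adj x y := by
        rintro x y hxy hT
        refine ⟨hxy, ?_⟩
        rintro ⟨g, hg, hg2⟩
        apply hh g hg
        rw [image_eq_compl]
        exact hT _ hg2
      exact hcd (h4 a b hab c d (key a c hac fun T hT => hsec T (Or.inl hT))
        (key b c hbc fun T hT => hsec T (Or.inr (Or.inr (Or.inl hT))))
        (key a d had fun T hT => hsec T (Or.inr (Or.inl hT)))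
        (key b d hbd fun T hT => hsec T (Or.inr (Or.inr (Or.inr hT)))))

/-- A special graph has no triangle, no `4`-cycle, and two different non-adjacent vertices. -/
theorem special_props (hn : 4 ≤ Fintype.card Ω) (Δ : SimpleGraph Ω) (h : IsSpecial Δ) :
    (∀ x y, Δ.Adj x y → ∀ z, ¬ (Δ.Adj x z ∧ Δ.Adj y z)) ∧
      (∀ x y, x ≠ y → ∀ z w, Δ.Adj x z → Δ.Adj y z → Δ.Adj x w → Δ.Adj y w → z = w) ∧
      ∃ x y, x ≠ y ∧ ¬ Δ.Adj x y := by
  have hm : ∀ d, 2 ≤ d → IsMoore Δ d → (∀ x y, Δ.Adj x y → ∀ z, ¬ (Δ.Adj x z ∧ Δ.Adj y z)) ∧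
      (∀ x y, x ≠ y → ∀ z w, Δ.Adj x z → Δ.Adj y z → Δ.Adj x w → Δ.Adj y w → z = w) ∧
      ∃ x y, x ≠ y ∧ ¬ Δ.Adj x y := by
    intro d hd hM
    refine ⟨hM.2.2.1, fun x y hxy z w h1 h2 h5 h6 => moore_uniq hM hxy h1 h2 h5 h6, ?_⟩
    have hne : Nonempty Ω := Fintype.card_pos_iff.mp (by omega)
    obtain ⟨x⟩ := hne
    have h1 : 1 < {y | Δ.Adj x y}.ncard := by
      rw [hM.2.1 x]
      omega
    obtain ⟨y, z, hy, hz, hyz⟩ := (Set.one_lt_ncard_iff (Set.toFinite _)).mp h1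
    exact ⟨y, z, hyz, fun hh => hM.2.2.1 x y hy z ⟨hz, hh⟩⟩
  have hcard2 : ∃ a b c : Ω, a ≠ b ∧ a ≠ c ∧ b ≠ c := by
    have h1 : 2 < (Finset.univ : Finset Ω).card := by
      rw [Finset.card_univ]
      omega
    obtain ⟨a, b, c, _, _, _, h2, h3, h4⟩ := Finset.two_lt_card_iff.mp h1
    exact ⟨a, b, c, h2, h3, h4⟩
  obtain ⟨a, b, c, hab, hac, hbc⟩ := hcard2
  rcases h with h | h | ⟨p, h⟩ | h | h | h
  · exact ⟨fun x y hxy => absurd hxy (h x y), fun x y _ z _ hxz => absurd hxz (h x z),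
      a, b, hab, h a b⟩
  · refine ⟨?_, ?_, ?_⟩
    · rintro x y hxy z ⟨hxz, hyz⟩
      have h1 := (h x).unique hxy hxz
      rw [h1] at hyz
      exact Δ.irrefl hyz
    · intro x y _ z w hxz _ hxw _
      exact (h x).unique hxz hxw
    · by_cases hh : Δ.Adj a b
      · exact ⟨a, c, hac, fun h1 => hbc ((h a).unique hh h1)⟩
      · exact ⟨a, b, hab, hh⟩
  · refine ⟨?_, ?_, ?_⟩
    · rintro x y hxy z ⟨hxz, hyz⟩
      rw [h] at hxy hxz hyz
      rcases hxy with ⟨h1, rfl | rfl⟩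
      · rcases hyz with ⟨h2, h5 | h5⟩
        · exact h1 h5.symm
        · exact hxz.1 h5.symm
      · rcases hxz with ⟨h2, h5 | h5⟩
        · exact h1 h5
        · exact hyz.1 h5.symm
    · intro x y hxy z w hxz hyz hxw hyw
      rw [h] at hxz hyz hxw hyw
      have hz : z = p := by
        rcases hxz with ⟨_, h1 | h1⟩
        · rcases hyz with ⟨_, h2 | h2⟩
          · exact absurd (h1.trans h2.symm) hxy
          · exact h2
        · exact h1
      have hw : w = p := by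
        rcases hxw with ⟨_, h1 | h1⟩
        · rcases hyw with ⟨_, h2 | h2⟩
          · exact absurd (h1.trans h2.symm) hxy
          · exact h2
        · exact h1
      rw [hz, hw]
    · by_cases ha : a = p
      · refine ⟨b, c, hbc, fun hh => ?_⟩
        rcases ((h b c).mp hh).2 with h1 | h1
        · exact hab (ha.trans h1.symm)
        · exact hac (ha.trans h1.symm)
      · by_cases hb : b = p
        · refine ⟨a, c, hac, fun hh => ?_⟩
          rcases ((h a c).mp hh).2 with h1 | h1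
          · exact ha h1
          · exact hbc (hb.trans h1.symm)
        · refine ⟨a, b, hab, fun hh => ?_⟩
          rcases ((h a b).mp hh).2 with h1 | h1
          · exact ha h1
          · exact hb h1
  · exact hm 2 le_rfl h
  · exact hm 3 (by norm_num) h
  · exact hm 7 (by norm_num) h

/-- The universal sets. -/
theorem main_sets (hn : 4 ≤ Fintype.card Ω) (G : Subgroup (Equiv.Perm Ω)) (S : Finset Ω) :
    IsUniversal G (Fintype.card Ω - 2) S ↔ ∃ Δ : SimpleGraph Ω, IsSpecial Δ ∧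
      ∀ x y, x ≠ y → (¬ Δ.Adj x y ↔ ∃ g ∈ G, Sᶜ.image g = {x, y}) := by
  constructor
  · intro hU
    have hS : Sᶜ.card = 2 := by
      have h1 := Finset.card_compl_add_card S
      have h2 := hU.1
      omega
    obtain ⟨h3, h4⟩ := (universal_iff hn G S hS).mp hU
    refine ⟨orbGraph G Sᶜ, ?_, fun x y hxy => orbGraph_not G Sᶜ hxy⟩
    have htr : ∀ x y z w, x ≠ y → ¬ (orbGraph G Sᶜ).Adj x y → z ≠ w →
        ¬ (orbGraph G Sᶜ).Adj z w → ∃ g ∈ G, (g x = z ∧ g y = w) ∨ (g x = w ∧ g y = z) := by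
      intro x y z w hxy h1 hzw h2
      obtain ⟨g, hg, hg2⟩ := (orbGraph_not G Sᶜ hxy).mp h1
      obtain ⟨k, hk, hk2⟩ := (orbGraph_not G Sᶜ hzw).mp h2
      refine ⟨k * g⁻¹, G.mul_mem hk (G.inv_mem hg), ?_⟩
      rw [← pair_eq_iff, ← hk2]
      have h5 : ({(k * g⁻¹) x, (k * g⁻¹) y} : Finset Ω) =
          ({x, y} : Finset Ω).image (k * g⁻¹ : Equiv.Perm Ω) := by
        rw [Finset.image_insert, Finset.image_singleton]
      rw [h5, ← hg2, Finset.image_image]
      congr 1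
      ext u
      simp
    rcases graph_cases (orbGraph G Sᶜ) h3 h4 hn (fun x y z w h1 h2 h5 h6 => by
        obtain ⟨g, hg, hg2⟩ := htr x y z w h1 h2 h5 h6
        exact ⟨g, orbGraph_aut G Sᶜ g hg, hg2⟩) with h | h | h | ⟨d, h⟩
    · exact Or.inl h
    · exact Or.inr (Or.inl h)
    · exact Or.inr (Or.inr (Or.inl h))
    · have hd : 2 ≤ d := by
        have h1 := h.1
        by_contra hh
        have h2 : d ^ 2 ≤ 1 ^ 2 := Nat.pow_le_pow_left (by omega) 2
        omega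
      rcases hs_degree _ d h hd with h1 | h1 | h1 | h1
      · subst h1
        exact Or.inr (Or.inr (Or.inr (Or.inl h)))
      · subst h1
        exact Or.inr (Or.inr (Or.inr (Or.inr (Or.inl h))))
      · subst h1
        exact Or.inr (Or.inr (Or.inr (Or.inr (Or.inr h))))
      · subst h1
        exact (not_57 _ h G (fun g hg => orbGraph_aut G Sᶜ g hg) htr).elim
  · rintro ⟨Δ, hΔ, hadj⟩
    obtain ⟨h3, h4, a, b, hab, hna⟩ := special_props hn Δ hΔ
    obtain ⟨g, hg, hg2⟩ := (hadj a b hab).mp hna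
    have hS : Sᶜ.card = 2 := by
      rw [← Finset.card_image_of_injective _ g.injective, hg2, Finset.card_pair hab]
    have heq : ∀ x y, (orbGraph G Sᶜ).Adj x y ↔ Δ.Adj x y := by
      intro x y
      constructor
      · rintro ⟨h1, h2⟩
        by_contra hh
        exact h2 ((hadj x y h1).mp hh)
      · intro hh
        exact ⟨hh.ne, fun h2 => (hadj x y hh.ne).mpr h2 hh⟩
    rw [universal_iff hn G S hS]
    simp only [heq]
    exact ⟨h3, h4⟩

/-- The groups. -/
theorem main_groups (hn : 4 ≤ Fintype.card Ω) (G : Subgroup (Equiv.Perm Ω)) :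
    WeakUT G (Fintype.card Ω - 2) ↔ ∃ Δ : SimpleGraph Ω, IsSpecial Δ ∧
      (∀ g ∈ G, ∀ x y, Δ.Adj (g x) (g y) ↔ Δ.Adj x y) ∧
      ∀ x y z w, x ≠ y → ¬ Δ.Adj x y → z ≠ w → ¬ Δ.Adj z w →
        ∃ g ∈ G, ({g x, g y} : Finset Ω) = {z, w} := by
  constructor
  · rintro ⟨S, hS⟩
    obtain ⟨Δ, hΔ, hadj⟩ := (main_sets hn G S).mp hS
    refine ⟨Δ, hΔ, ?_, ?_⟩
    · intro g hg x y
      have heq : ∀ x y, (orbGraph G Sᶜ).Adj x y ↔ Δ.Adj x y := by
        intro x y
        constructor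
        · rintro ⟨h1, h2⟩
          by_contra hh
          exact h2 ((hadj x y h1).mp hh)
        · intro hh
          exact ⟨hh.ne, fun h2 => (hadj x y hh.ne).mpr h2 hh⟩
      rw [← heq, ← heq]
      exact orbGraph_aut G Sᶜ g hg x y
    · intro x y z w hxy h1 hzw h2
      obtain ⟨g, hg, hg2⟩ := (hadj x y hxy).mp h1
      obtain ⟨k, hk, hk2⟩ := (hadj z w hzw).mp h2
      refine ⟨k * g⁻¹, G.mul_mem hk (G.inv_mem hg), ?_⟩
      rw [← hk2]
      have h5 : ({(k * g⁻¹) x, (k * g⁻¹) y} : Finset Ω) =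
          ({x, y} : Finset Ω).image (k * g⁻¹ : Equiv.Perm Ω) := by
        rw [Finset.image_insert, Finset.image_singleton]
      rw [h5, ← hg2, Finset.image_image]
      congr 1
      ext u
      simp
  · rintro ⟨Δ, hΔ, haut, htr⟩
    obtain ⟨_, _, a, b, hab, hna⟩ := special_props hn Δ hΔ
    refine ⟨({a, b} : Finset Ω)ᶜ, (main_sets hn G _).mpr ⟨Δ, hΔ, ?_⟩⟩
    intro x y hxy
    rw [compl_compl]
    have himg : ∀ g : Equiv.Perm Ω, ({a, b} : Finset Ω).image g = {g a, g b} := by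
      intro g
      rw [Finset.image_insert, Finset.image_singleton]
    simp only [himg]
    constructor
    · intro h
      exact htr a b x y hab hna hxy h
    · rintro ⟨g, hg, hg2⟩ hh
      have hna' : ¬ Δ.Adj (g a) (g b) := fun h5 => hna ((haut g hg a b).mp h5)
      rcases pair_eq_iff.mp hg2 with ⟨h5, h6⟩ | ⟨h5, h6⟩
      · rw [h5, h6] at hna'
        exact hna' hh
      · rw [h5, h6] at hna'
        exact hna' hh.symm

end Pool.Agent.Lib.MP_2f925d_al
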