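import Pool.Agent.Lib.MP_2f925d_al.Defs

/-!
# Primitive groups, and groups fixing a point
-/

set_option autoImplicit false

namespace Pool.Agent.Lib.MP_2f925d_al

variable {Ω : Type*} [DecidableEq Ω]

omit [DecidableEq Ω] in
/-- `G` is primitive: transitive, and the only `G`-invariant equivalence relations are the trivial
ones. -/
def IsPrimitiveGroup (G : Subgroup (Equiv.Perm Ω)) : Prop :=
  (∀ x y : Ω, ∃ g ∈ G, g x = y) ∧
    ∀ r : Setoid Ω, (∀ g ∈ G, ∀ x y, r x y → r (g x) (g y)) → r = ⊥ ∨ r = ⊤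

/-- `G` fixes `c` and is transitive on the `m`-subsets which do not contain `c`. -/
def FixesAt (G : Subgroup (Equiv.Perm Ω)) (m : ℕ) (c : Ω) : Prop :=
  (∀ g ∈ G, g c = c) ∧
    ∀ A B : Finset Ω, A.card = m → B.card = m → c ∉ A → c ∉ B → ∃ g ∈ G, A.image g = B

end Pool.Agent.Lib.MP_2f925d_al
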