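import Pool.Agent.Lib.MP_2f925d_al.HomC
import Pool.Agent.Lib.MP_2f925d_al.PrimDefs

/-!
# Primitivity for `n / 2 < k ≤ n - 3`
-/

set_option autoImplicit false

namespace Pool.Agent.Lib.MP_2f925d_al

variable {Ω : Type*} [Fintype Ω] [DecidableEq Ω]

/-- A universal set and a map of rank `k`. -/
theorem universal_map {G : Subgroup (Equiv.Perm Ω)} {k : ℕ} {S : Finset Ω}
    (hS : IsUniversal G k S) (ρ : Ω → Ω) (hρ : (Finset.univ.image ρ).card = k) :
    ∃ g ∈ G, ∀ y ∈ Finset.univ.image ρ,
      ((S.image g).filter (fun x => ρ x = y)).card = 1 := by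
  classical
  let P : Finpartition (Finset.univ : Finset Ω) := Finpartition.ofSetoid (Setoid.ker ρ)
  have hmem : ∀ B : Finset Ω, B ∈ P.parts ↔
      ∃ y ∈ Finset.univ.image ρ, Finset.univ.filter (fun x => ρ x = y) = B := by
    intro B
    constructor
    · intro hB
      obtain ⟨x, hx⟩ := P.nonempty_of_mem_parts hB
      refine ⟨ρ x, Finset.mem_image_of_mem _ (Finset.mem_univ _), ?_⟩
      have h1 : P.part x = B := P.part_eq_of_mem hB hx
      rw [← h1]
      ext z
      rw [Finset.mem_filter, Finpartition.mem_part_ofSetoid_iff_rel]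
      simp [Setoid.ker_def, eq_comm]
    · rintro ⟨y, hy, rfl⟩
      obtain ⟨x, _, rfl⟩ := Finset.mem_image.mp hy
      have h1 : Finset.univ.filter (fun z => ρ z = ρ x) = P.part x := by
        ext z
        rw [Finset.mem_filter, Finpartition.mem_part_ofSetoid_iff_rel]
        simp [Setoid.ker_def, eq_comm]
      rw [h1]
      exact P.part_mem.mpr (Finset.mem_univ x)
  have hP : P.parts.card = k := by
    rw [← hρ]
    symm
    refine Finset.card_bij (fun y _ => Finset.univ.filter (fun x => ρ x = y)) ?_ ?_ ?_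
    · intro y hy
      exact (hmem _).mpr ⟨y, hy, rfl⟩
    · intro y hy y' hy' h
      obtain ⟨x, _, rfl⟩ := Finset.mem_image.mp hy
      have h1 : x ∈ Finset.univ.filter (fun z => ρ z = ρ x) := by simp
      rw [h] at h1
      simpa using h1
    · intro B hB
      obtain ⟨y, hy, rfl⟩ := (hmem B).mp hB
      exact ⟨y, hy, rfl⟩
  obtain ⟨g, hg, hsec⟩ := hS.2 P hP
  refine ⟨g, hg, fun y hy => ?_⟩
  have h1 := hsec _ ((hmem _).mpr ⟨y, hy, rfl⟩)
  rw [← h1]
  congr 1
  ext z
  simp

/-- If `R` meets every class of an equivalence relation, some image of `S` has the same number of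
points as `R` in each class. -/
theorem same_counts {G : Subgroup (Equiv.Perm Ω)} {k : ℕ} {S : Finset Ω}
    (hS : IsUniversal G k S) (r : Setoid Ω) [DecidableRel r] (R : Finset Ω) (hR : R.card = k)
    (hmeet : ∀ x, ∃ y ∈ R, r x y) : ∃ g ∈ G, ∀ x,
      ((S.image g).filter (fun z => r x z)).card = (R.filter (fun z => r x z)).card := by
  classical
  have hex : ∀ x, ∃ y, y ∈ R ∧ r x y ∧ (x ∈ R → y = x) := by
    intro x
    by_cases hx : x ∈ R
    · exact ⟨x, hx, r.refl x, fun _ => rfl⟩
    · obtain ⟨y, hy, hxy⟩ := hmeet x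
      exact ⟨y, hy, hxy, fun h => absurd h hx⟩
  choose ρ hρ1 hρ2 hρ3 using hex
  have himg : Finset.univ.image ρ = R := by
    ext y
    rw [Finset.mem_image]
    constructor
    · rintro ⟨x, _, rfl⟩
      exact hρ1 x
    · intro hy
      exact ⟨y, Finset.mem_univ _, hρ3 y hy⟩
  obtain ⟨g, hg, hsec⟩ := universal_map hS ρ (by rw [himg, hR])
  rw [himg] at hsec
  refine ⟨g, hg, fun x => ?_⟩
  refine Finset.card_bij (fun z _ => ρ z) ?_ ?_ ?_
  · intro z hz
    rw [Finset.mem_filter] at hz ⊢
    exact ⟨hρ1 z, r.trans hz.2 (hρ2 z)⟩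
  · intro z hz z' hz' h
    rw [Finset.mem_filter] at hz hz'
    have h1 := hsec (ρ z) (hρ1 z)
    obtain ⟨w, hw⟩ := Finset.card_eq_one.mp h1
    have h2 : z ∈ (S.image g).filter (fun u => ρ u = ρ z) := Finset.mem_filter.mpr ⟨hz.1, rfl⟩
    have h3 : z' ∈ (S.image g).filter (fun u => ρ u = ρ z) :=
      Finset.mem_filter.mpr ⟨hz'.1, h.symm⟩
    rw [hw, Finset.mem_singleton] at h2 h3
    rw [h2, h3]
  · intro y hy
    rw [Finset.mem_filter] at hy
    obtain ⟨w, hw⟩ := Finset.card_eq_one.mp (hsec y hy.1)
    have h2 : w ∈ (S.image g).filter (fun u => ρ u = y) := by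
      rw [hw]
      exact Finset.mem_singleton_self w
    rw [Finset.mem_filter] at h2
    refine ⟨w, ?_, h2.2⟩
    rw [Finset.mem_filter]
    refine ⟨h2.1, r.trans hy.2 ?_⟩
    have h3 := hρ2 w
    rw [h2.2] at h3
    exact r.symm h3

/-- The number of points whose class is contained in `U`. -/
noncomputable def full (r : Setoid Ω) (U : Finset Ω) : ℕ := by
  classical
  exact (Finset.univ.filter (fun x => ∀ z, r x z → z ∈ U)).card

theorem full_image (r : Setoid Ω) (g : Equiv.Perm Ω) (hg : ∀ x y, r (g x) (g y) ↔ r x y)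
    (U : Finset Ω) : full r (U.image g) = full r U := by
  classical
  unfold full
  rw [← Finset.card_image_of_injective
    (Finset.univ.filter (fun x => ∀ z, r x z → z ∈ U)) g.injective]
  congr 1
  ext x
  simp only [Finset.mem_filter, Finset.mem_univ, true_and, Finset.mem_image]
  constructor
  · intro h
    refine ⟨g.symm x, fun z hz => ?_, by simp⟩
    obtain ⟨u, hu, huz⟩ := h (g z) (by
      have := (hg (g.symm x) z).mpr hz
      simpa using this)
    rwa [g.injective huz] at hu
  · rintro ⟨y, hy, rfl⟩ z hz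
    refine ⟨g.symm z, hy _ ?_, by simp⟩
    rw [← hg]
    simpa using hz

theorem full_eq {r : Setoid Ω} [DecidableRel r] {U V : Finset Ω}
    (h : ∀ x, (U.filter (fun z => r x z)).card = (V.filter (fun z => r x z)).card) :
    full r U = full r V := by
  classical
  have key : ∀ W : Finset Ω, ∀ x, (∀ z, r x z → z ∈ W) ↔
      (W.filter (fun z => r x z)).card = (Finset.univ.filter (fun z => r x z)).card := by
    intro W x
    have hsub : W.filter (fun z => r x z) ⊆ Finset.univ.filter (fun z => r x z) :=
      Finset.filter_subset_filter _ (Finset.subset_univ _)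
    constructor
    · intro hW
      congr 1
      refine Finset.Subset.antisymm hsub fun z hz => ?_
      have hz' := (Finset.mem_filter.mp hz).2
      exact Finset.mem_filter.mpr ⟨hW z hz', hz'⟩
    · intro hc z hz
      have h1 := Finset.eq_of_subset_of_card_le hsub hc.ge
      have h2 : z ∈ Finset.univ.filter (fun z => r x z) :=
        Finset.mem_filter.mpr ⟨Finset.mem_univ _, hz⟩
      rw [← h1] at h2
      exact (Finset.mem_filter.mp h2).1
  unfold full
  congr 1
  ext x
  simp only [Finset.mem_filter, Finset.mem_univ, true_and]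
  rw [key U x, key V x, h x]

/-- All sets `R` with `k` points which meet every class contain the same number of whole
classes. -/
theorem full_const {G : Subgroup (Equiv.Perm Ω)} {k : ℕ} {S : Finset Ω}
    (hS : IsUniversal G k S) (r : Setoid Ω) (hr : ∀ g ∈ G, ∀ x y, r x y → r (g x) (g y))
    (R : Finset Ω) (hR : R.card = k) (hmeet : ∀ x, ∃ y ∈ R, r x y) : full r R = full r S := by
  classical
  obtain ⟨g, hg, h⟩ := same_counts hS r R hR hmeet
  have hg2 : ∀ x y, r (g x) (g y) ↔ r x y := by
    intro x y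
    refine ⟨fun hxy => ?_, hr g hg x y⟩
    have h1 := hr g⁻¹ (G.inv_mem hg) _ _ hxy
    simpa using h1
  rw [← full_image r g hg2 S]
  exact (full_eq h).symm

/-- The fixed point case. -/
theorem fixes_of_not_good {G : Subgroup (Equiv.Perm Ω)} {T : Finset Ω} {t : ℕ}
    (hT : T.card = t) (ht : 1 ≤ t) (hn1 : t + 1 ≤ Fintype.card Ω)
    (hK : ∀ W : Finset Ω, W.card = t + 1 → ∃ g ∈ G, T.image g ⊆ W)
    (c : Ω) (hc : ¬ Good G T {c}) : FixesAt G t c := by
  have hd : ∀ d, d ≠ c → Good G T {d} := by
    intro d hdc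
    obtain ⟨v, hv, hg⟩ := erase_good hT hn1 hK (i := 1) ht {d, c} (Finset.card_pair hdc)
    rcases Finset.mem_insert.mp hv with h | h
    · exfalso
      apply hc
      refine hg.mono ?_
      rw [h]
      intro z hz
      rw [Finset.mem_singleton] at hz
      rw [hz]
      simp [hdc.symm]
    · rw [Finset.mem_singleton] at h
      refine hg.mono ?_
      rw [h]
      intro z hz
      rw [Finset.mem_singleton] at hz
      rw [hz]
      simp [hdc]
  refine ⟨?_, ?_⟩
  · intro g hg
    by_contra hgc
    have h1 := hd (g c) hgc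
    rw [← Finset.image_singleton, good_image_iff hg] at h1
    exact hc h1
  · have hgood : ∀ A : Finset Ω, A.card = t → c ∉ A → ∃ g ∈ G, T.image g = A := by
      intro A hA hcA
      obtain ⟨v, hv, hg⟩ := erase_good hT hn1 hK (i := t) le_rfl (insert c A)
        (by rw [Finset.card_insert_of_notMem hcA, hA])
      rcases Finset.mem_insert.mp hv with h | h
      · rw [h, Finset.erase_insert hcA] at hg
        obtain ⟨g, hg, hg2⟩ := hg
        refine ⟨g, hg, (Finset.eq_of_subset_of_card_le hg2 ?_).symm⟩
        rw [Finset.card_image_of_injective _ g.injective, hT, hA]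
      · exfalso
        apply hc
        refine hg.mono ?_
        intro z hz
        rw [Finset.mem_singleton] at hz
        rw [hz, Finset.mem_erase]
        exact ⟨fun h2 => hcA (h2 ▸ h), Finset.mem_insert_self _ _⟩
    intro A B hA hB hcA hcB
    obtain ⟨g, hg, hgA⟩ := hgood A hA hcA
    obtain ⟨h, hh, hhB⟩ := hgood B hB hcB
    refine ⟨h * g⁻¹, G.mul_mem hh (G.inv_mem hg), ?_⟩
    rw [← hgA, Finset.image_image, ← hhB]
    congr 1
    funext u
    simp

/-- The transitivity case. -/
theorem trans_of_good {G : Subgroup (Equiv.Perm Ω)} {T : Finset Ω} {t : ℕ}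
    (hn : 2 * t < Fintype.card Ω)
    (hK : ∀ W : Finset Ω, W.card = t + 1 → ∃ g ∈ G, T.image g ⊆ W)
    (hc : ∀ c, Good G T {c}) (x y : Ω) : ∃ g ∈ G, g x = y := by
  classical
  by_contra hxy
  -- the orbit of `x` and its complement are both met by `T`
  let A : Finset Ω := Finset.univ.filter (fun z => ∃ g ∈ G, g x = z)
  have hA : ∀ g ∈ G, ∀ z, g z ∈ A ↔ z ∈ A := by
    intro g hg z
    simp only [A, Finset.mem_filter, Finset.mem_univ, true_and]
    constructor
    · rintro ⟨h, hh, hhz⟩
      refine ⟨g⁻¹ * h, G.mul_mem (G.inv_mem hg) hh, ?_⟩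
      change g⁻¹ (h x) = z
      rw [hhz]
      simp
    · rintro ⟨h, hh, hhz⟩
      refine ⟨g * h, G.mul_mem hg hh, ?_⟩
      change g (h x) = g z
      rw [hhz]
  have hxA : x ∈ A := by
    simp only [A, Finset.mem_filter, Finset.mem_univ, true_and]
    exact ⟨1, G.one_mem, rfl⟩
  have hyA : y ∉ A := by
    simp only [A, Finset.mem_filter, Finset.mem_univ, true_and]
    exact hxy
  obtain ⟨g1, hg1, h1⟩ := hc x
  obtain ⟨g2, hg2, h2⟩ := hc y
  obtain ⟨u, hu, hux⟩ := Finset.mem_image.mp (h1 (Finset.mem_singleton_self x))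
  obtain ⟨v, hv, hvy⟩ := Finset.mem_image.mp (h2 (Finset.mem_singleton_self y))
  have huA : u ∈ A := by
    rw [← hA g1 hg1, hux]
    exact hxA
  have hvA : v ∉ A := by
    rw [← hA g2 hg2, hvy]
    exact hyA
  have hcard := Finset.card_compl_add_card A
  rcases (show t + 1 ≤ A.card ∨ t + 1 ≤ Aᶜ.card by omega) with h | h
  · obtain ⟨W, hWA, hW⟩ := Finset.exists_subset_card_eq h
    obtain ⟨g, hg, hgW⟩ := hK W hW
    exact hvA ((hA g hg v).mp (hWA (hgW (Finset.mem_image_of_mem _ hv))))
  · obtain ⟨W, hWA, hW⟩ := Finset.exists_subset_card_eq h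
    obtain ⟨g, hg, hgW⟩ := hK W hW
    exact (Finset.mem_compl.mp (hWA (hgW (Finset.mem_image_of_mem _ hu))))
      ((hA g hg u).mpr huA)

/-- A `t`-set `A` without whole classes, which has two points in one class and none in another
one, is impossible. -/
theorem no_move {G : Subgroup (Equiv.Perm Ω)} {t : ℕ} {S : Finset Ω}
    (hU : IsUniversal G (Fintype.card Ω - t) S) (r : Setoid Ω)
    (hr : ∀ g ∈ G, ∀ x y, r x y → r (g x) (g y)) (A : Finset Ω) (hA : A.card = t)
    (hout : ∀ x, ∃ y, y ∉ A ∧ r x y) {a1 a2 d d' : Ω} (ha1 : a1 ∈ A) (ha2 : a2 ∈ A)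
    (hne : a1 ≠ a2) (hra : r a1 a2) (hd : ∀ z, r d z → z ∉ A) (hdd : d ≠ d') (hrd : r d d') :
    False := by
  classical
  have hdA : d ∉ A := hd d (r.refl d)
  let A' := insert d (A.erase a1)
  have hA' : A'.card = t := by
    have h1 : d ∉ A.erase a1 := fun h => hdA (Finset.mem_of_mem_erase h)
    have h2 : 0 < A.card := Finset.card_pos.mpr ⟨a1, ha1⟩
    rw [Finset.card_insert_of_notMem h1, Finset.card_erase_of_mem ha1]
    omega
  have hR : full r Aᶜ = full r S := by
    refine full_const hU r hr Aᶜ (by rw [Finset.card_compl, hA]) fun x => ?_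
    obtain ⟨y, hy, hxy⟩ := hout x
    exact ⟨y, Finset.mem_compl.mpr hy, hxy⟩
  have hR' : full r A'ᶜ = full r S := by
    refine full_const hU r hr A'ᶜ (by rw [Finset.card_compl, hA']) fun x => ?_
    by_cases hxd : r x d
    · refine ⟨d', ?_, r.trans hxd hrd⟩
      rw [Finset.mem_compl, Finset.mem_insert]
      rintro (h | h)
      · exact hdd h.symm
      · exact hd d' hrd (Finset.mem_of_mem_erase h)
    · obtain ⟨y, hy, hxy⟩ := hout x
      refine ⟨y, ?_, hxy⟩
      rw [Finset.mem_compl, Finset.mem_insert]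
      rintro (h | h)
      · exact hxd (h ▸ hxy)
      · exact hy (Finset.mem_of_mem_erase h)
  have hlt : full r A'ᶜ < full r Aᶜ := by
    unfold full
    refine Finset.card_lt_card ?_
    rw [Finset.ssubset_iff_of_subset]
    · refine ⟨d, ?_, ?_⟩
      · rw [Finset.mem_filter]
        exact ⟨Finset.mem_univ _, fun z hz => Finset.mem_compl.mpr (hd z hz)⟩
      · rw [Finset.mem_filter]
        rintro ⟨_, h⟩
        exact (Finset.mem_compl.mp (h d (r.refl d))) (Finset.mem_insert_self _ _)
    · intro x hx
      rw [Finset.mem_filter] at hx ⊢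
      refine ⟨Finset.mem_univ _, fun z hz => ?_⟩
      rw [Finset.mem_compl]
      intro hzA
      by_cases hza : z = a1
      · have h1 : r x a2 := r.trans (hza ▸ hz) hra
        exact (Finset.mem_compl.mp (hx.2 a2 h1)) (Finset.mem_insert_of_mem
          (Finset.mem_erase.mpr ⟨hne.symm, ha2⟩))
      · exact (Finset.mem_compl.mp (hx.2 z hz)) (Finset.mem_insert_of_mem
          (Finset.mem_erase.mpr ⟨hza, hzA⟩))
  rw [hR, hR'] at hlt
  exact lt_irrefl _ hlt

/-- There is no invariant equivalence relation. -/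
theorem prim_of_trans {G : Subgroup (Equiv.Perm Ω)} {t : ℕ} {S : Finset Ω}
    (hU : IsUniversal G (Fintype.card Ω - t) S) (ht : 3 ≤ t) (hn : 2 * t < Fintype.card Ω)
    (htr : ∀ x y : Ω, ∃ g ∈ G, g x = y) (r : Setoid Ω)
    (hr : ∀ g ∈ G, ∀ x y, r x y → r (g x) (g y)) : r = ⊥ ∨ r = ⊤ := by
  classical
  by_contra hcon
  push Not at hcon
  obtain ⟨hbot, htop⟩ := hcon
  have hr2 : ∀ g ∈ G, ∀ x y, r (g x) (g y) ↔ r x y := by
    intro g hg x y
    refine ⟨fun hxy => ?_, hr g hg x y⟩
    have h1 := hr g⁻¹ (G.inv_mem hg) _ _ hxy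
    simpa using h1
  obtain ⟨x0, y0, hxy0, hrxy0⟩ : ∃ x y, x ≠ y ∧ r x y := by
    by_contra h
    push Not at h
    apply hbot
    refine Setoid.ext fun x y => ?_
    constructor
    · intro hxy
      by_contra hne
      exact h x y hne hxy
    · intro hxy
      have : x = y := hxy
      rw [this]
  obtain ⟨u0, v0, hruv0⟩ : ∃ x y, ¬ r x y := by
    by_contra h
    push Not at h
    apply htop
    refine Setoid.ext fun x y => ⟨fun _ => trivial, fun _ => h x y⟩
  -- all classes have the same number of points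
  let cls : Ω → Finset Ω := fun x => Finset.univ.filter (fun z => r x z)
  have hmem : ∀ x z, z ∈ cls x ↔ r x z := fun x z => by simp [cls]
  have hsize : ∀ x y, (cls x).card = (cls y).card := by
    intro x y
    obtain ⟨g, hg, hgxy⟩ := htr x y
    rw [← Finset.card_image_of_injective _ g.injective]
    congr 1
    ext z
    rw [Finset.mem_image, hmem]
    constructor
    · rintro ⟨w, hw, rfl⟩
      rw [← hgxy]
      exact hr g hg _ _ ((hmem x w).mp hw)
    · intro hz
      refine ⟨g.symm z, ?_, by simp⟩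
      rw [hmem, ← hr2 g hg, hgxy]
      simpa using hz
  obtain ⟨b, hb⟩ : ∃ b, (cls x0).card = b := ⟨_, rfl⟩
  have hb' : ∀ x, (cls x).card = b := fun x => (hsize x x0).trans hb
  have hb2 : 2 ≤ b := by
    rw [← hb, ← Finset.card_pair hxy0]
    refine Finset.card_le_card fun z hz => ?_
    rw [Finset.mem_insert, Finset.mem_singleton] at hz
    rw [hmem]
    rcases hz with rfl | rfl
    · exact r.refl _
    · exact hrxy0
  obtain ⟨w0, hw0⟩ : ∃ w, ¬ r x0 w := by
    by_contra h
    push Not at h
    exact hruv0 (r.trans (r.symm (h u0)) (h v0))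
  have hdisj : ∀ x y, ¬ r x y → Disjoint (cls x) (cls y) := by
    intro x y hxy
    rw [Finset.disjoint_left]
    intro z hz hz'
    rw [hmem] at hz hz'
    exact hxy (r.trans hz (r.symm hz'))
  have hunion : ((cls x0) ∪ (cls w0)).card = 2 * b := by
    rw [Finset.card_union_of_disjoint (hdisj _ _ hw0), hb', hb']
    ring
  have hunle : 2 * b ≤ Fintype.card Ω := by
    rw [← hunion]
    exact Finset.card_le_univ _
  -- a set `A` as in the previous lemma is impossible
  have hnomove : ∀ A : Finset Ω, A.card = t → (∀ x, ∃ y, y ∉ A ∧ r x y) →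
      ∀ a1 a2 d : Ω, a1 ∈ A → a2 ∈ A → a1 ≠ a2 → r a1 a2 → (∀ z, r d z → z ∉ A) → False := by
    intro A hA hout a1 a2 d h1 h2 h3 h4 h5
    obtain ⟨d', hd', hdd'⟩ : ∃ d' ∈ cls d, d' ≠ d := by
      refine Finset.exists_mem_ne ?_ d
      rw [hb']
      omega
    exact no_move hU r hr A hA hout h1 h2 h3 h4 h5 hdd'.symm ((hmem d d').mp hd')
  by_cases hbig : 2 * b ≤ t + 1
  · -- `T` contains no class, but a set with `t + 1` points can contain two classes
    obtain ⟨W, hWsub, _, hW⟩ := Finset.exists_subsuperset_card_eq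
      (Finset.subset_univ ((cls x0) ∪ (cls w0))) (by rw [hunion]; exact hbig)
      (show t + 1 ≤ (Finset.univ : Finset Ω).card by rw [Finset.card_univ]; omega)
    obtain ⟨g, hg, hgW⟩ := universal_block (t := t) hU W hW
    -- a set `R` which meets every class
    obtain ⟨h, hh, hcount⟩ : ∃ h ∈ G, ∀ x, 0 < ((S.image h).filter (fun z => r x z)).card := by
      have hex : ∀ x, ∃ y, r x y ∧ ∀ x', r x x' → ∃ y', r x' y' ∧ y' = y := fun x =>
        ⟨x, r.refl x, fun x' hx' => ⟨x, r.symm hx', rfl⟩⟩
      -- representatives of the classes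
      let F : Finset Ω := Finset.univ.image (fun x => (Quotient.mk r x).out)
      have hF : ∀ x, ∃ y ∈ F, r x y := by
        intro x
        refine ⟨(Quotient.mk r x).out, Finset.mem_image_of_mem _ (Finset.mem_univ _), ?_⟩
        exact r.symm (Quotient.mk_out x)
      have hFcard : 2 * F.card ≤ Fintype.card Ω := by
        -- every class has at least two points
        have h1 : ∑ y ∈ F, 2 ≤ ∑ y ∈ F, (cls y).card := by
          refine Finset.sum_le_sum fun y _ => ?_
          rw [hb']
          exact hb2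
        have h2 : ∑ y ∈ F, (cls y).card ≤ Fintype.card Ω := by
          rw [← Finset.card_biUnion]
          · exact Finset.card_le_univ _
          · intro y hy y' hy' hne
            refine hdisj y y' fun hyy' => hne ?_
            obtain ⟨u, _, rfl⟩ := Finset.mem_image.mp hy
            obtain ⟨v, _, rfl⟩ := Finset.mem_image.mp hy'
            have h3 : (Quotient.mk r (Quotient.mk r u).out) = Quotient.mk r (Quotient.mk r v).out :=
              Quotient.sound hyy'
            rw [Quotient.out_eq, Quotient.out_eq] at h3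
            simp only [h3]
        rw [Finset.sum_const, smul_eq_mul] at h1
        omega
      obtain ⟨R, hFR, _, hR⟩ := Finset.exists_subsuperset_card_eq (Finset.subset_univ F)
        (show F.card ≤ Fintype.card Ω - t by omega)
        (by rw [Finset.card_univ]; omega)
      obtain ⟨h, hh, hc⟩ := same_counts hU r R hR fun x => by
        obtain ⟨y, hy, hxy⟩ := hF x
        exact ⟨y, hFR hy, hxy⟩
      refine ⟨h, hh, fun x => ?_⟩
      rw [hc x, Finset.card_pos]
      obtain ⟨y, hy, hxy⟩ := hF x
      exact ⟨y, Finset.mem_filter.mpr ⟨hFR hy, hxy⟩⟩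
    -- so every image of `S` meets every class
    have hall : ∀ k ∈ G, ∀ x, ∃ z ∈ S.image k, r x z := by
      intro k hk x
      have h1 := hcount ((h * k⁻¹) x)
      rw [Finset.card_pos] at h1
      obtain ⟨z, hz⟩ := h1
      rw [Finset.mem_filter] at hz
      obtain ⟨s, hs, rfl⟩ := Finset.mem_image.mp hz.1
      refine ⟨k s, Finset.mem_image_of_mem _ hs, ?_⟩
      rw [← hr2 (h * k⁻¹) (G.mul_mem hh (G.inv_mem hk))]
      have h2 : (h * k⁻¹) (k s) = h s := by simp
      rw [h2]
      exact hz.2
    -- the image of `T` in `W` misses only one point of `W`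
    have hTc : (Sᶜ.image g).card = t := by
      rw [Finset.card_image_of_injective _ g.injective]
      have h1 := Finset.card_compl_add_card S
      have h2 := hU.1
      omega
    have hmiss : (W \ Sᶜ.image g).card = 1 := by
      rw [Finset.card_sdiff_of_subset hgW, hW, hTc]
      omega
    obtain ⟨v, hv⟩ := Finset.card_eq_one.mp hmiss
    have hcl : ∀ x, cls x ⊆ W → v ∈ cls x := by
      intro x hx
      obtain ⟨z, hz, hxz⟩ := hall g hg x
      have h1 : z ∈ W \ Sᶜ.image g := by
        refine Finset.mem_sdiff.mpr ⟨hx ((hmem x z).mpr hxz), ?_⟩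
        rw [image_eq_compl] at hz
        exact Finset.mem_compl.mp hz
      rw [hv, Finset.mem_singleton] at h1
      rw [← h1, hmem]
      exact hxz
    have h1 := hcl x0 (Finset.subset_union_left.trans hWsub)
    have h2 := hcl w0 (Finset.subset_union_right.trans hWsub)
    exact Finset.disjoint_left.mp (hdisj _ _ hw0) h1 h2
  · push Not at hbig
    have hb3 : 3 ≤ b := by omega
    by_cases hbt : t + 1 ≤ b
    · -- `A` inside one class
      obtain ⟨A, hAsub, hA⟩ := Finset.exists_subset_card_eq
        (show t ≤ ((cls x0).erase x0).card by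
          rw [Finset.card_erase_of_mem ((hmem x0 x0).mpr (r.refl x0)), hb']
          omega)
      have h1 : 1 < A.card := by omega
      obtain ⟨a1, ha1, a2, ha2, hne⟩ := Finset.one_lt_card.mp h1
      have hA2 : ∀ z ∈ A, r x0 z ∧ z ≠ x0 := by
        intro z hz
        have h2 := Finset.mem_erase.mp (hAsub hz)
        exact ⟨(hmem x0 z).mp h2.2, h2.1⟩
      refine hnomove A hA ?_ a1 a2 w0 ha1 ha2 hne
        (r.trans (r.symm (hA2 a1 ha1).1) (hA2 a2 ha2).1) ?_
      · intro x
        by_cases hx : r x x0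
        · exact ⟨x0, fun h => (hA2 x0 h).2 rfl, hx⟩
        · exact ⟨x, fun h => hx (r.symm (hA2 x h).1), r.refl x⟩
      · intro z hz hzA
        exact hw0 (r.trans (hA2 z hzA).1 (r.symm hz))
    · -- `A` inside two classes
      obtain ⟨d, hd⟩ : ∃ d, d ∉ (cls x0) ∪ (cls w0) := by
        by_contra h
        push Not at h
        have h1 : (Finset.univ : Finset Ω) ⊆ (cls x0) ∪ (cls w0) := fun z _ => h z
        have h2 := Finset.card_le_card h1
        rw [Finset.card_univ, hunion] at h2
        omega
      rw [Finset.mem_union, hmem, hmem, not_or] at hd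
      have h1 : 1 < ((cls x0).erase x0).card := by
        rw [Finset.card_erase_of_mem ((hmem x0 x0).mpr (r.refl x0)), hb']
        omega
      obtain ⟨a1, ha1, a2, ha2, hne⟩ := Finset.one_lt_card.mp h1
      have hpair : ({a1, a2} : Finset Ω) ⊆ ((cls x0).erase x0) ∪ ((cls w0).erase w0) := by
        intro z hz
        rw [Finset.mem_insert, Finset.mem_singleton] at hz
        rcases hz with rfl | rfl
        · exact Finset.mem_union_left _ ha1
        · exact Finset.mem_union_left _ ha2
      have hcard : (((cls x0).erase x0) ∪ ((cls w0).erase w0)).card = 2 * b - 2 := by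
        rw [Finset.card_union_of_disjoint, Finset.card_erase_of_mem
          ((hmem x0 x0).mpr (r.refl x0)), Finset.card_erase_of_mem
          ((hmem w0 w0).mpr (r.refl w0)), hb', hb']
        · omega
        · exact (hdisj _ _ hw0).mono (Finset.erase_subset _ _) (Finset.erase_subset _ _)
      obtain ⟨A, hpA, hAsub, hA⟩ := Finset.exists_subsuperset_card_eq hpair
        (show ({a1, a2} : Finset Ω).card ≤ t by rw [Finset.card_pair hne]; omega)
        (by rw [hcard]; omega)
      have hA2 : ∀ z ∈ A, (r x0 z ∧ z ≠ x0) ∨ (r w0 z ∧ z ≠ w0) := by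
        intro z hz
        rcases Finset.mem_union.mp (hAsub hz) with h | h
        · rw [Finset.mem_erase, hmem] at h
          exact Or.inl ⟨h.2, h.1⟩
        · rw [Finset.mem_erase, hmem] at h
          exact Or.inr ⟨h.2, h.1⟩
      have hra : r a1 a2 := by
        rw [Finset.mem_erase, hmem] at ha1 ha2
        exact r.trans (r.symm ha1.2) ha2.2
      refine hnomove A hA ?_ a1 a2 d (hpA (by simp)) (hpA (by simp)) hne hra ?_
      · intro x
        by_cases hx : r x x0
        · refine ⟨x0, fun h => ?_, hx⟩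
          rcases hA2 x0 h with h2 | h2
          · exact h2.2 rfl
          · exact hw0 (r.symm h2.1)
        · by_cases hx2 : r x w0
          · refine ⟨w0, fun h => ?_, hx2⟩
            rcases hA2 w0 h with h2 | h2
            · exact hw0 h2.1
            · exact h2.2 rfl
          · refine ⟨x, fun h => ?_, r.refl x⟩
            rcases hA2 x h with h2 | h2
            · exact hx (r.symm h2.1)
            · exact hx2 (r.symm h2.1)
      · intro z hz hzA
        rcases hA2 z hzA with h2 | h2
        · exact hd.1 (r.trans h2.1 (r.symm hz))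
        · exact hd.2 (r.trans h2.1 (r.symm hz))

theorem universal_of_fixesAt {G : Subgroup (Equiv.Perm Ω)} {t : ℕ} {S : Finset Ω} {c : Ω}
    (hS : S.card = Fintype.card Ω - t) (ht : t ≤ Fintype.card Ω) (hc : c ∈ S)
    (h : FixesAt G t c) :
    IsUniversal G (Fintype.card Ω - t) S := by
  refine ⟨hS, fun P hP => ?_⟩
  obtain ⟨R, hR, hcR, hsec⟩ := exists_section_through P c
  have h1 := Finset.card_compl_add_card S
  have h2 := Finset.card_compl_add_card R
  obtain ⟨g, hg, hg2⟩ := h.2 Sᶜ Rᶜ (by omega) (by omega) (by simpa using hc) (by simpa using hcR)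
  refine ⟨g, hg, ?_⟩
  rw [image_eq_compl, hg2, compl_compl]
  exact hsec

/-- The universal sets of groups which are not primitive, `n / 2 < k ≤ n - 3`. -/
theorem nonprimitive (t : ℕ) (ht : 3 ≤ t) (hn : 2 * t < Fintype.card Ω)
    (G : Subgroup (Equiv.Perm Ω)) (hG : ¬ IsPrimitiveGroup G) (S : Finset Ω) :
    IsUniversal G (Fintype.card Ω - t) S ↔
      S.card = Fintype.card Ω - t ∧ ∃ c ∈ S, FixesAt G t c := by
  constructor
  · intro hS
    have hT : Sᶜ.card = t := by
      have h1 := Finset.card_compl_add_card S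
      have h2 := hS.1
      omega
    have hK := fun W hW => universal_block hS (t := t) W hW
    refine ⟨hS.1, ?_⟩
    by_cases hc : ∃ c, ¬ Good G Sᶜ {c}
    · obtain ⟨c, hc⟩ := hc
      refine ⟨c, ?_, fixes_of_not_good hT (by omega) (by omega) hK c hc⟩
      by_contra hcS
      refine hc ⟨1, G.one_mem, ?_⟩
      rw [Equiv.Perm.coe_one, Finset.image_id, Finset.singleton_subset_iff, Finset.mem_compl]
      exact hcS
    · exfalso
      push Not at hc
      have htr := trans_of_good hn hK hc
      exact hG ⟨htr, fun r hr => prim_of_trans hS ht hn htr r hr⟩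
  · rintro ⟨hS, c, hc, h⟩
    exact universal_of_fixesAt hS (by omega) hc h

end Pool.Agent.Lib.MP_2f925d_al
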